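import Pool.Agent.V5helper51.PL.Thm
import Pool.Agent.V5helper51.HM.All
import Pool.Agent.N748.MJ.Fin
import Pool.Agent.V5helper68.PL.ZB1
import Pool.Agent.V5helper68.PL.BADM
import Pool.Agent.V5helper68.PL.NEARM
import Pool.Agent.V5helper7.PL.UCV
import Pool.Agent.V5helper7.PL.FAR2
import Pool.Agent.V5helper76.PL.KAV
import Pool.Agent.V5helper19.PL.MAJ
import Pool.Agent.V5helper19.PL.VAR
import Pool.Agent.V5helper3.PL.RJM

set_option autoImplicit false

/-!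
# Project PL: all parts put together
-/

namespace Pool.Agent.V5helper51.PL

open Filter MeasureTheory Topology
open Pool.Agent.N748.MJ
open Pool.Agent.V5helper51.HM (Ad Neg frac ak z Wd)

theorem a_RJM : S_RJM := Pool.Agent.V5helper3.PL.t_RJM jmF posF LZB.main

theorem a_ZB1 : S_ZB1 := Pool.Agent.V5helper68.PL.t_ZB1

theorem a_ZB2 : S_ZB2 := Pool.Agent.V5helper3.PL.t_ZB2

theorem a_BADM : S_BADM := Pool.Agent.V5helper68.PL.t_BADM a_RJM a_ZB1

theorem a_NEARM : S_NEARM := Pool.Agent.V5helper68.PL.t_NEARM a_RJM a_ZB1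

theorem a_MAJ : S_MAJ := Pool.Agent.V5helper19.PL.t_MAJ

theorem a_VAR : S_VAR := Pool.Agent.V5helper19.PL.t_VAR

theorem a_UCV : S_UCV := Pool.Agent.V5helper7.PL.t_UCV bndF gvbF

theorem a_FAR2 : S_FAR2 := Pool.Agent.V5helper7.PL.t_FAR2 jmF posF LZB.main a_MAJ a_UCV a_ZB2

theorem a_KAV : S_KAV := Pool.Agent.V5helper76.PL.KAV.t_KAV Pool.Agent.V5helper81.HM.t_ZML3
  Pool.Agent.N748.GC.ERG.main gvbF bndF

/-- the expected proportion of the points with `|ζ| > (2d)^(-V)` -/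
noncomputable def me (V d : ℝ) : ℝ :=
  ak V * (2 * d) ^ (V ^ 2) / (2 * V * Real.sqrt (Real.pi * Real.log (1 / (2 * d))))

lemma me_eq (V d : ℝ) : mu V d = me V d := by
  unfold mu me
  rw [Pool.Agent.N748.MG.aC_re]
  rfl

theorem rP (d H : ℝ → ℝ) (hd0 : ∀ᶠ T : ℝ in atTop, 0 < d T) (hd : Tendsto d atTop (𝓝 0))
    (hdL : Tendsto (fun T : ℝ => d T * Real.log T / Real.log (1 / d T) ^ 2) atTop atTop) (V : ℝ) (hV : 0 < V) :
    (∀ θ D η : ℝ, 0 < θ → V ^ 2 < 1 + θ → 0 < η → (∀ᶠ T : ℝ in atTop, d T ^ (-θ) ≤ H T ∧ H T ≤ d T ^ (-D)) →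
      Tendsto (fun T : ℝ => frac T {t : ℝ | η ≤ |lam V (d T) (H T) t / me V (d T) - 1|}) atTop (𝓝 0)) ∧
    (∀ θ : ℝ, 0 ≤ θ → 1 + θ < V ^ 2 → (∀ᶠ T : ℝ in atTop, H T ≤ d T ^ (-θ)) →
      Tendsto (fun T : ℝ => frac T {t : ℝ | ∃ u : ℝ, t ≤ u ∧ u ≤ t + H T ∧ (2 * d T) ^ (-V) < z (d T) u})
        atTop (𝓝 0)) := by
  have hAd : Ad d := ⟨hd0, hd, hdL⟩
  have ha : 0 < (Pool.Agent.N748.MG.aC V).re := by
    rw [Pool.Agent.N748.MG.aC_re]
    exact (Pool.Agent.N748.MG.aC_akR V).1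
  constructor
  · intro θ D η hθ hVθ hη hH
    have h1 := plw a_BADM a_NEARM a_FAR2 a_KAV a_VAR Pool.Agent.N748.MG.utF conF posF hV ha hθ
      (by linarith) hAd hH hη
    simp_rw [me_eq] at h1
    exact h1.fr
  · intro θ hθ hVθ hH
    set V' : ℝ := (Real.sqrt (1 + θ) + V) / 2 with hV'
    have hs : Real.sqrt (1 + θ) < V := by
      rw [Real.sqrt_lt' hV]
      exact hVθ
    have h1 : Real.sqrt (1 + θ) < V' := by rw [hV']; linarith
    have h2 : V' < V := by rw [hV']; linarith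
    have hW : Wd d (fun T => d T ^ (-θ)) θ := by
      refine ⟨hd0.mono fun T h => Real.rpow_pos_of_pos h _, ?_⟩
      refine (tendsto_const_nhds (x := θ)).congr' ?_
      filter_upwards [hAd.sm] with T ⟨h3, h4⟩
      have h5 : 0 < Real.log (1 / d T) := Real.log_pos (by rw [lt_div_iff₀ h3]; linarith)
      rw [Real.log_rpow h3, one_div, Real.log_inv]
      rw [one_div, Real.log_inv] at h5
      have h6 : Real.log (d T) ≠ 0 := (show Real.log (d T) < 0 by linarith).ne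
      field_simp
    refine (Neg.mono (Pool.Agent.V5helper51.HM.empt Pool.Agent.V5helper51.HM.supz_all hAd V' θ hW hθ h1) ?_).fr
    filter_upwards [hH, hAd.sm, hAd.pw (V - V') (2 ^ (-V)) (by linarith) (by positivity)] with T h3 ⟨h4, h4'⟩ h5
    rintro t - - ⟨u, hu1, hu2, hu3⟩
    refine ⟨u, hu1, by linarith, ?_⟩
    refine le_trans ?_ hu3.le
    rw [Real.mul_rpow (by norm_num) h4.le]
    calc d T ^ (-V') = d T ^ (V - V') * d T ^ (-V) := by
          rw [← Real.rpow_add h4]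
          congr 1
          ring
      _ ≤ 2 ^ (-V) * d T ^ (-V) := mul_le_mul_of_nonneg_right h5.le (Real.rpow_nonneg h4.le _)

/-- exponents, for all `θ ≥ 0` -/
theorem rQ (d H : ℝ → ℝ) (hd0 : ∀ᶠ T : ℝ in atTop, 0 < d T) (hd : Tendsto d atTop (𝓝 0))
    (hdL : Tendsto (fun T : ℝ => d T * Real.log T / Real.log (1 / d T) ^ 2) atTop atTop) (V : ℝ) (hV : 0 < V)
    (θ : ℝ) (hθ : 0 ≤ θ) (hVθ : V ^ 2 < 1 + θ) (hH1 : ∀ᶠ T : ℝ in atTop, 1 ≤ H T)
    (hH : Tendsto (fun T : ℝ => Real.log (H T) / Real.log (1 / d T)) atTop (𝓝 θ)) (e : ℝ) (he : 0 < e) :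
    Tendsto (fun T : ℝ => frac T {t : ℝ | ¬ (d T ^ (V ^ 2 + e) ≤ lam V (d T) (H T) t ∧
        lam V (d T) (H T) t ≤ d T ^ (V ^ 2 - e))}) atTop (𝓝 0) := by
  have hAd : Ad d := ⟨hd0, hd, hdL⟩
  have hH0 : ∀ᶠ T : ℝ in atTop, 0 < H T := hH1.mono fun T h => by linarith
  have hW : Wd d H θ := ⟨hH0, hH⟩
  have hs : V < Real.sqrt (1 + θ) := Real.lt_sqrt_of_sq_lt hVθ
  -- the neighbouring levels
  have hc : Tendsto (fun x : ℝ => x ^ 2) (𝓝 V) (𝓝 (V ^ 2)) := (continuous_pow 2).continuousAt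
  obtain ⟨r, hr0, hr⟩ := Metric.tendsto_nhds_nhds.1 hc (e / 2) (by positivity)
  set r' : ℝ := min (r / 2) (min (V / 2) ((Real.sqrt (1 + θ) - V) / 2)) with hr'
  have hr'0 : 0 < r' := lt_min (by positivity) (lt_min (by positivity) (by linarith))
  have hr'1 : r' ≤ r / 2 := min_le_left _ _
  have hr'2 : r' ≤ V / 2 := (min_le_right _ _).trans (min_le_left _ _)
  have hr'3 : r' ≤ (Real.sqrt (1 + θ) - V) / 2 := (min_le_right _ _).trans (min_le_right _ _)
  have q1 := hr (x := V + r') (by rw [Real.dist_eq, add_sub_cancel_left, abs_of_pos hr'0]; linarith)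
  have q2 := hr (x := V - r') (by
    rw [Real.dist_eq, show V - r' - V = -r' by ring, abs_neg, abs_of_pos hr'0]; linarith)
  rw [Real.dist_eq, abs_lt] at q1 q2
  have key := Pool.Agent.V5helper51.HM.EXg Pool.Agent.V5helper51.HM.core3 Pool.Agent.V5helper51.HM.haa hAd
    (Pool.Agent.V5helper51.HM.unit1 Pool.Agent.V5helper51.HM.w0_all hAd) hW hθ hH1
  have k1 : Neg fun T => {t : ℝ | ¬ (d T ^ ((V + r') ^ 2 + e / 2) ≤ Pool.Agent.V5helper51.HM.lv (V + r') (d T) (H T) t ∧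
      Pool.Agent.V5helper51.HM.lv (V + r') (d T) (H T) t ≤ d T ^ ((V + r') ^ 2 - e / 2))} :=
    Pool.Agent.V5helper51.HM.level hAd hH0 key (V + r') (e / 2) (by linarith) (by linarith) (by positivity)
  have k2 : Neg fun T => {t : ℝ | ¬ (d T ^ ((V - r') ^ 2 + e / 2) ≤ Pool.Agent.V5helper51.HM.lv (V - r') (d T) (H T) t ∧
      Pool.Agent.V5helper51.HM.lv (V - r') (d T) (H T) t ≤ d T ^ ((V - r') ^ 2 - e / 2))} :=
    Pool.Agent.V5helper51.HM.level hAd hH0 key (V - r') (e / 2) (by linarith) (by linarith) (by positivity)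
  refine (Neg.mono (Neg.union k1 k2) ?_).fr
  filter_upwards [hH0, hAd.sm, hAd.pw r' (2 ^ (-V)) hr'0 (by positivity)] with T h3 ⟨h4, h4'⟩ h5
  rintro t - - ht
  by_contra hcon
  simp only [Set.mem_union, Set.mem_setOf_eq, not_or, not_not] at hcon
  obtain ⟨⟨g1, -⟩, -, g2⟩ := hcon
  refine ht ⟨?_, ?_⟩
  · have h6 : Pool.Agent.V5helper51.HM.lv (V + r') (d T) (H T) t ≤ lam V (d T) (H T) t := by
      unfold Pool.Agent.V5helper51.HM.lv lam
      refine div_le_div_of_nonneg_right ?_ h3.le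
      refine ENNReal.toReal_mono ?_ (measure_mono ?_)
      · exact ne_top_of_le_ne_top (by simp) (measure_mono (t := Set.Icc t (t + H T)) fun s hs => ⟨hs.1, hs.2.1⟩)
      · rintro u ⟨hu1, hu2, hu3⟩
        refine ⟨hu1, hu2, lt_of_lt_of_le ?_ hu3⟩
        have h7 : (2 * d T) ^ (-V) < (d T) ^ (-V) :=
          Real.rpow_lt_rpow_of_neg h4 (by linarith) (by linarith)
        exact h7.trans_le (Real.rpow_le_rpow_of_exponent_ge h4 (by linarith) (by linarith))
    refine le_trans ?_ (g1.trans h6)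
    exact Real.rpow_le_rpow_of_exponent_ge h4 (by linarith) (by linarith [q1.2])
  · have h6 : lam V (d T) (H T) t ≤ Pool.Agent.V5helper51.HM.lv (V - r') (d T) (H T) t := by
      unfold Pool.Agent.V5helper51.HM.lv lam
      refine div_le_div_of_nonneg_right ?_ h3.le
      refine ENNReal.toReal_mono ?_ (measure_mono ?_)
      · exact ne_top_of_le_ne_top (by simp) (measure_mono (t := Set.Icc t (t + H T)) fun s hs => ⟨hs.1, hs.2.1⟩)
      · rintro u ⟨hu1, hu2, hu3⟩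
        refine ⟨hu1, hu2, le_trans ?_ hu3.le⟩
        rw [Real.mul_rpow (by norm_num) h4.le]
        calc d T ^ (-(V - r')) = d T ^ r' * d T ^ (-V) := by
              rw [← Real.rpow_add h4]
              congr 1
              ring
          _ ≤ 2 ^ (-V) * d T ^ (-V) := mul_le_mul_of_nonneg_right h5.le (Real.rpow_nonneg h4.le _)
    refine (h6.trans g2).trans ?_
    exact Real.rpow_le_rpow_of_exponent_ge h4 (by linarith) (by linarith [q2.1])

end Pool.Agent.V5helper51.PL
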