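import Pool.Agent.V5helper51.PL.Stm
import Pool.Agent.V5helper51.HM.Fin3

set_option autoImplicit false

/-!
# Project PL: assembly
-/

namespace Pool.Agent.V5helper51.PL

open Filter MeasureTheory Topology
open Pool.Agent.N748.MG (mz pw Ev aC S_UT)
open Pool.Agent.V5helper51.HM (Ad Neg frac)

/-! ### general lemmas -/

lemma ev_ad {P : ℝ → ℝ → Prop} (h : Ev P) {d : ℝ → ℝ} (hd : Ad d) : ∀ᶠ T : ℝ in atTop, P T (d T) := by
  obtain ⟨lam, δ0, h1, h2, h3, h4⟩ := h
  filter_upwards [h4, hd.ev lam δ0 h2] with T h5 ⟨h6, h7, h8⟩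
  exact h5 (d T) h6 h7 h8

lemma ev_ad2 {P : ℝ → ℝ → Prop} (h : Ev P) {d : ℝ → ℝ} (hd : Ad d) : ∀ᶠ T : ℝ in atTop, P (2 * T) (d T) := by
  obtain ⟨lam, δ0, h1, h2, h3, h4⟩ := h
  have ht : Tendsto (fun T : ℝ => 2 * T) atTop atTop := tendsto_id.const_mul_atTop (by norm_num)
  filter_upwards [ht.eventually h4, hd.ev lam δ0 h2, eventually_gt_atTop 1] with T h5 ⟨h6, h7, h8⟩ hT
  refine h5 (d T) h6 h7 (h8.trans ?_)
  exact mul_le_mul_of_nonneg_left (Real.log_le_log (by linarith) (by linarith)) h6.le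

/-- powers of `1/d` are small compared to `T` -/
lemma pwT {d : ℝ → ℝ} (hd : Ad d) (s c : ℝ) (hs : 0 ≤ s) (hc : 0 < c) : ∀ᶠ T : ℝ in atTop, d T ^ (-s) ≤ c * T := by
  have h1 : ∀ᶠ T : ℝ in atTop, 1 / d T ≤ Real.log T := by
    filter_upwards [hd.ev 1 (Real.exp (-1)) (Real.exp_pos _)] with T ⟨h2, h4, h5⟩
    have h6 : 1 ≤ Real.log (1 / d T) := by
      rw [one_div, Real.log_inv]
      have := Real.log_le_log h2 h4
      rw [Real.log_exp] at this
      linarith
    rw [div_le_iff₀ h2]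
    nlinarith
  have h2 : ∀ᶠ T : ℝ in atTop, Real.log T ^ s ≤ c * T := by
    have h4 := (isLittleO_log_rpow_rpow_atTop s (zero_lt_one)).bound hc
    filter_upwards [h4, eventually_gt_atTop 1] with T h5 h6
    rw [Real.rpow_one, Real.norm_of_nonneg (by linarith : (0:ℝ) ≤ T),
      Real.norm_of_nonneg (Real.rpow_nonneg (Real.log_pos h6).le _)] at h5
    exact h5
  filter_upwards [h1, h2, hd.pos] with T h4 h5 h6
  refine le_trans ?_ h5
  rw [Real.rpow_neg h6.le, ← Real.inv_rpow h6.le, ← one_div]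
  exact Real.rpow_le_rpow (by positivity) h4 hs

lemma ii_bdd {F : ℝ → ℝ} (hF : Measurable F) (h0 : ∀ s, 0 ≤ F s) (h1 : ∀ s, F s ≤ 1) (a b : ℝ) :
    IntervalIntegrable F volume a b := by
  refine IntervalIntegrable.mono_fun (g := F) (f := fun _ => (1:ℝ)) intervalIntegrable_const
    hF.aestronglyMeasurable ?_
  refine Eventually.of_forall fun u => ?_
  show ‖F u‖ ≤ ‖(1:ℝ)‖
  rw [Real.norm_of_nonneg (h0 u), norm_one]
  exact h1 u

/-- the average over the window -/
noncomputable def Av (F : ℝ → ℝ) (H t : ℝ) : ℝ := (1 / H) * ∫ s in t..(t + H), F s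

lemma Av_cont {F : ℝ → ℝ} (hF : Measurable F) (h0 : ∀ s, 0 ≤ F s) (h1 : ∀ s, F s ≤ 1) (H : ℝ) :
    Continuous (Av F H) := by
  have hi := ii_bdd hF h0 h1
  have e : Av F H = fun t => (1 / H) * ((∫ u in (0:ℝ)..(t + H), F u) - ∫ u in (0:ℝ)..t, F u) := by
    funext t
    unfold Av
    rw [intervalIntegral.integral_interval_sub_left (hi _ _) (hi _ _)]
  rw [e]
  have h2 : Continuous fun t : ℝ => ∫ u in (0:ℝ)..t, F u :=
    intervalIntegral.continuous_primitive (fun a b => hi a b) 0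
  exact continuous_const.mul ((h2.comp (continuous_id.add continuous_const)).sub h2)

/-- the mean of the averages -/
lemma Av_mean {F : ℝ → ℝ} (hF : Measurable F) (h0 : ∀ s, 0 ≤ F s) (h1 : ∀ s, F s ≤ 1) {H T : ℝ} (hH : 0 < H)
    (hT : 0 < T) :
    (∫ s in (0:ℝ)..T, F s) - H ≤ ∫ t in (0:ℝ)..T, Av F H t ∧
      ∫ t in (0:ℝ)..T, Av F H t ≤ ∫ s in (0:ℝ)..(T + H), F s := by
  have hi := ii_bdd hF h0 h1
  set P : ℝ → ℝ := fun t => ∫ u in (0:ℝ)..t, F u with hP
  have hPc : Continuous P := intervalIntegral.continuous_primitive (fun a b => hi a b) 0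
  have hPm : ∀ a b : ℝ, a ≤ b → P a ≤ P b := by
    intro a b hab
    have h2 : P b - P a = ∫ u in a..b, F u := by
      rw [hP]
      simp only
      rw [intervalIntegral.integral_interval_sub_left (hi _ _) (hi _ _)]
    have h3 : 0 ≤ ∫ u in a..b, F u := intervalIntegral.integral_nonneg hab fun u _ => h0 u
    linarith
  have hP0 : P 0 = 0 := by rw [hP]; simp
  have hPH : P H ≤ H := by
    have : ∫ u in (0:ℝ)..H, F u ≤ ∫ u in (0:ℝ)..H, (1:ℝ) :=
      intervalIntegral.integral_mono_on hH.le (hi _ _) intervalIntegrable_const fun u _ => h1 u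
    rw [intervalIntegral.integral_const, smul_eq_mul, mul_one, sub_zero] at this
    exact this
  have hPi : ∀ a b : ℝ, IntervalIntegrable P volume a b := fun a b => hPc.intervalIntegrable _ _
  have e1 : ∀ t, Av F H t = (1 / H) * (P (t + H) - P t) := by
    intro t
    unfold Av
    rw [hP]
    simp only
    rw [intervalIntegral.integral_interval_sub_left (hi _ _) (hi _ _)]
  have e2 : ∫ t in (0:ℝ)..T, Av F H t = (1 / H) * ((∫ t in (0:ℝ)..T, P (t + H)) - ∫ t in (0:ℝ)..T, P t) := by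
    simp_rw [e1]
    rw [intervalIntegral.integral_const_mul, intervalIntegral.integral_sub _ (hPi _ _)]
    exact (hPc.comp (continuous_id.add continuous_const)).intervalIntegrable _ _
  have e3 : (∫ t in H..(T + H), P t) - ∫ t in (0:ℝ)..T, P t = (∫ t in T..(T + H), P t) - ∫ t in (0:ℝ)..H, P t := by
    have h2 := intervalIntegral.integral_add_adjacent_intervals (hPi 0 H) (hPi H (T + H))
    have h3 := intervalIntegral.integral_add_adjacent_intervals (hPi 0 T) (hPi T (T + H))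
    linarith
  rw [e2, intervalIntegral.integral_comp_add_right (fun t => P t) H, zero_add, e3]
  have h4 : 0 ≤ ∫ t in (0:ℝ)..H, P t := by
    refine intervalIntegral.integral_nonneg hH.le fun u hu => ?_
    rw [← hP0]
    exact hPm _ _ hu.1
  have h4' : ∫ t in (0:ℝ)..H, P t ≤ ∫ t in (0:ℝ)..H, P H :=
    intervalIntegral.integral_mono_on hH.le (hPi _ _) intervalIntegrable_const fun s hs => hPm _ _ hs.2
  have h5 : ∫ t in T..(T + H), P t ≤ ∫ t in T..(T + H), P (T + H) :=
    intervalIntegral.integral_mono_on (by linarith) (hPi _ _) intervalIntegrable_const fun s hs => hPm _ _ hs.2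
  have h5' : ∫ t in T..(T + H), P T ≤ ∫ t in T..(T + H), P t :=
    intervalIntegral.integral_mono_on (by linarith) intervalIntegrable_const (hPi _ _) fun s hs => hPm _ _ hs.1
  rw [intervalIntegral.integral_const, smul_eq_mul, add_sub_cancel_left] at h5 h5'
  rw [intervalIntegral.integral_const, smul_eq_mul, sub_zero] at h4'
  constructor
  · have h6 : (1 / H) * (H * P T - H * P H) ≤ (1 / H) * ((∫ t in T..(T + H), P t) - ∫ t in (0:ℝ)..H, P t) :=
      mul_le_mul_of_nonneg_left (by linarith) (by positivity)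
    have h7 : (1 / H) * (H * P T - H * P H) = P T - P H := by field_simp
    linarith
  · calc (1 / H) * ((∫ t in T..(T + H), P t) - ∫ t in (0:ℝ)..H, P t)
        ≤ (1 / H) * (H * P (T + H)) := mul_le_mul_of_nonneg_left (by linarith) (by positivity)
      _ = P (T + H) := by field_simp

/-- Markov's inequality -/
lemma mrk {A : ℝ → ℝ} (hA : Continuous A) (h0 : ∀ t, 0 ≤ A t) {T B κ : ℝ} (hT : 0 < T) (hκ : 0 < κ)
    (hB : ∫ t in (0:ℝ)..T, A t ≤ B) : volume ({t : ℝ | κ ≤ A t} ∩ Set.Icc 0 T) ≤ ENNReal.ofReal (B / κ) := by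
  have hms : MeasurableSet {t : ℝ | κ ≤ A t} := measurableSet_le measurable_const hA.measurable
  have hfin : volume ({t : ℝ | κ ≤ A t} ∩ Set.Icc 0 T) ≠ ⊤ :=
    ne_top_of_le_ne_top (by simp) (measure_mono Set.inter_subset_right)
  have h5 : κ * (volume ({t : ℝ | κ ≤ A t} ∩ Set.Icc 0 T)).toReal ≤ ∫ t in (0:ℝ)..T, A t := by
    rw [intervalIntegral.integral_of_le hT.le, ← integral_Icc_eq_integral_Ioc]
    have h6 : ∫ t in ({t : ℝ | κ ≤ A t} ∩ Set.Icc 0 T), κ ≤ ∫ t in ({t : ℝ | κ ≤ A t} ∩ Set.Icc 0 T), A t := by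
      refine setIntegral_mono_on (integrableOn_const hfin) ?_ (hms.inter measurableSet_Icc) fun t ht => ht.1
      exact (hA.continuousOn.integrableOn_Icc).mono_set Set.inter_subset_right
    have h7 : ∫ t in ({t : ℝ | κ ≤ A t} ∩ Set.Icc 0 T), A t ≤ ∫ t in Set.Icc 0 T, A t := by
      refine setIntegral_mono_set hA.continuousOn.integrableOn_Icc ?_ ?_
      · exact Eventually.of_forall fun t => h0 t
      · exact Eventually.of_forall Set.inter_subset_right
    rw [setIntegral_const, smul_eq_mul] at h6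
    have h8 : volume.real ({t : ℝ | κ ≤ A t} ∩ Set.Icc 0 T) = (volume ({t : ℝ | κ ≤ A t} ∩ Set.Icc 0 T)).toReal := rfl
    rw [h8] at h6
    linarith
  rw [← ENNReal.ofReal_toReal hfin]
  refine ENNReal.ofReal_le_ofReal ?_
  rw [le_div_iff₀ hκ]
  linarith

/-- from the first two moments to the proportion -/
lemma cheb {A A' : ℝ → ℝ} (hA : Continuous A) (hA' : Continuous A') (hAA : ∀ t, A' t ≤ A t) {T μ ε η : ℝ} (hT : 0 < T)
    (hμ : 0 < μ) (hε : 0 ≤ ε) (hη : 0 < η) (h1 : (1 - ε) * μ * T ≤ ∫ t in (0:ℝ)..T, A' t)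
    (h2 : ∫ t in (0:ℝ)..T, A' t ^ 2 ≤ (1 + ε) * μ ^ 2 * T) (h3 : ∫ t in (0:ℝ)..T, (A t - A' t) ≤ ε * μ * T) :
    volume ({t : ℝ | η ≤ |A t / μ - 1|} ∩ Set.Icc 0 T) ≤ ENNReal.ofReal ((12 / η ^ 2 + 2 / η) * ε * T) := by
  have e1 : ∫ t in (0:ℝ)..T, (A' t - μ) ^ 2 ≤ 3 * ε * μ ^ 2 * T := by
    have e2 : ∫ t in (0:ℝ)..T, (A' t - μ) ^ 2 = (∫ t in (0:ℝ)..T, A' t ^ 2) - 2 * μ * (∫ t in (0:ℝ)..T, A' t) + μ ^ 2 * T := by
      have e3 : ∀ t, (A' t - μ) ^ 2 = A' t ^ 2 - 2 * μ * A' t + μ ^ 2 := fun t => by ring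
      simp_rw [e3]
      rw [intervalIntegral.integral_add, intervalIntegral.integral_sub, intervalIntegral.integral_const_mul,
        intervalIntegral.integral_const, smul_eq_mul, sub_zero, mul_comm T]
      · exact (hA'.pow 2).intervalIntegrable _ _
      · exact (continuous_const.mul hA').intervalIntegrable _ _
      · exact ((hA'.pow 2).sub (continuous_const.mul hA')).intervalIntegrable _ _
      · exact intervalIntegrable_const
    rw [e2]
    nlinarith [mul_le_mul_of_nonneg_left h1 (show (0:ℝ) ≤ 2 * μ by linarith)]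
  have m1 := mrk (A := fun t => (A' t - μ) ^ 2) ((hA'.sub continuous_const).pow 2) (fun t => sq_nonneg _) hT
    (κ := (η * μ / 2) ^ 2) (by positivity) e1
  have m2 := mrk (A := fun t => A t - A' t) (hA.sub hA') (fun t => by linarith [hAA t]) hT
    (κ := η * μ / 2) (by positivity) h3
  refine le_trans (measure_mono (t := ({t : ℝ | (η * μ / 2) ^ 2 ≤ (A' t - μ) ^ 2} ∩ Set.Icc 0 T) ∪
    ({t : ℝ | η * μ / 2 ≤ A t - A' t} ∩ Set.Icc 0 T)) ?_) ?_
  · rintro t ⟨ht1, ht2⟩
    by_cases h : η * μ / 2 ≤ A t - A' t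
    · exact Or.inr ⟨h, ht2⟩
    · refine Or.inl ⟨?_, ht2⟩
      have ht3 : η ≤ |A t / μ - 1| := ht1
      have e4 : A t / μ - 1 = (A t - μ) / μ := by field_simp
      rw [e4, abs_div, abs_of_pos hμ, le_div_iff₀ hμ] at ht3
      have h4 : η * μ / 2 ≤ |A' t - μ| := by
        have h5 : |A t - μ| ≤ |A t - A' t| + |A' t - μ| := by
          have := abs_add_le (A t - A' t) (A' t - μ)
          rwa [show A t - A' t + (A' t - μ) = A t - μ by ring] at this
        have h6 : |A t - A' t| = A t - A' t := abs_of_nonneg (by linarith [hAA t])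
        linarith [not_le.1 h]
      have h5 : (η * μ / 2) ^ 2 ≤ |A' t - μ| ^ 2 := pow_le_pow_left₀ (by positivity) h4 2
      rwa [sq_abs] at h5
  · refine le_trans (measure_union_le _ _) (le_trans (add_le_add m1 m2) ?_)
    rw [← ENNReal.ofReal_add (by positivity) (by positivity)]
    refine ENNReal.ofReal_le_ofReal (le_of_eq ?_)
    field_simp
    ring

end Pool.Agent.V5helper51.PL
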