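import Pool.Agent.V5helper51.PL.Asm

set_option autoImplicit false

/-!
# Project PL: the main theorem from the parts
-/

namespace Pool.Agent.V5helper51.PL

open Filter MeasureTheory Topology
open Pool.Agent.N748.MG (mz pw Ev aC S_UT)
open Pool.Agent.V5helper51.HM (Ad Neg frac)

lemma mz_cont {δ : ℝ} (h0 : 0 < δ) (h1 : δ < 1 / 2) : Continuous (mz δ) := Pool.Agent.V5helper51.HM.z_cont h0 h1

lemma Gm_meas {δ : ℝ} (h0 : 0 < δ) (h1 : δ < 1 / 2) (N : ℕ) (η : ℝ) : Measurable (Gm δ N η) := by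
  unfold Gm
  refine Finset.measurable_fun_prod _ fun i _ => ?_
  exact ((mz_cont h0 h1).comp (by fun_prop : Continuous fun t : ℝ => t + 2 * ((i:ℝ) + 1) * η)).measurable.pow_const _

/-- the points with large values -/
def SL (c δ : ℝ) : Set ℝ := {s : ℝ | c < mz δ s}

/-- the good points with large values -/
def SG (V ε : ℝ) (M N : ℕ) (c δ : ℝ) : Set ℝ := {s : ℝ | c < mz δ s ∧ Gd V ε M N δ s}

lemma SL_meas {c δ : ℝ} (h0 : 0 < δ) (h1 : δ < 1 / 2) : MeasurableSet (SL c δ) :=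
  measurableSet_lt measurable_const (mz_cont h0 h1).measurable

lemma SG_meas {V ε : ℝ} {M N : ℕ} {c δ : ℝ} (h0 : 0 < δ) (h1 : δ < 1 / 2) : MeasurableSet (SG V ε M N c δ) := by
  have e : SG V ε M N c δ = SL c δ ∩ ⋂ j ∈ Finset.range M,
      {s : ℝ | Gm δ N (δ ^ ((j:ℝ) / M)) s ≤ δ ^ (-((j:ℝ) / M * V + ε))} := by
    ext s
    simp only [SG, SL, Gd, Set.mem_setOf_eq, Set.mem_inter_iff, Set.mem_iInter, Finset.mem_range]
  rw [e]
  refine (SL_meas h0 h1).inter (Finset.measurableSet_biInter _ fun j _ => ?_)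
  exact measurableSet_le (Gm_meas h0 h1 _ _) measurable_const

lemma SG_sub {V ε : ℝ} {M N : ℕ} {c δ : ℝ} : SG V ε M N c δ ⊆ SL c δ := fun _ h => h.1

/-- the indicator function -/
noncomputable def ind (S : Set ℝ) (s : ℝ) : ℝ := Set.indicator S (fun _ => (1:ℝ)) s

lemma ind0 (S : Set ℝ) (s : ℝ) : 0 ≤ ind S s := Set.indicator_nonneg (fun _ _ => zero_le_one) _

lemma ind1 (S : Set ℝ) (s : ℝ) : ind S s ≤ 1 := by
  unfold ind
  exact Set.indicator_le_self' (fun _ _ => zero_le_one) _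

lemma ind_meas {S : Set ℝ} (h : MeasurableSet S) : Measurable (ind S) := measurable_const.indicator h

lemma ind_int {S : Set ℝ} (h : MeasurableSet S) {a b : ℝ} (hab : a ≤ b) :
    ∫ s in a..b, ind S s = (volume (S ∩ Set.Icc a b)).toReal := by
  unfold ind
  rw [intervalIntegral.integral_of_le hab, ← integral_Icc_eq_integral_Ioc, integral_indicator h,
    Measure.restrict_restrict h, setIntegral_const, smul_eq_mul, mul_one]
  rfl

/-- the proportion of the window on which `|ζ| > (2δ)^(-V)` -/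
noncomputable def lam (V δ H t : ℝ) : ℝ :=
  (volume {u : ℝ | t ≤ u ∧ u ≤ t + H ∧ (2 * δ) ^ (-V) < mz δ u}).toReal / H

lemma lam_eq {V δ H t : ℝ} (h0 : 0 < δ) (h1 : δ < 1 / 2) (hH : 0 < H) :
    lam V δ H t = Av (ind (SL ((2 * δ) ^ (-V)) δ)) H t := by
  unfold lam Av
  rw [ind_int (SL_meas h0 h1) (by linarith)]
  have : {u : ℝ | t ≤ u ∧ u ≤ t + H ∧ (2 * δ) ^ (-V) < mz δ u} = SL ((2 * δ) ^ (-V)) δ ∩ Set.Icc t (t + H) := by
    ext u
    simp only [SL, Set.mem_setOf_eq, Set.mem_inter_iff, Set.mem_Icc]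
    tauto
  rw [this]
  ring

/-! ### sizes -/

lemma log_pw {d : ℝ → ℝ} (hd : Ad d) (s c : ℝ) (hs : 0 < s) (hc : 0 < c) :
    ∀ᶠ T : ℝ in atTop, d T ^ s * Real.sqrt (Real.pi * Real.log (1 / (2 * d T))) ≤ c := by
  have h1 : Tendsto (fun x : ℝ => Real.log x * x ^ s) (𝓝[>] 0) (𝓝 0) := tendsto_log_mul_rpow_nhdsGT_zero hs
  have h2 : Tendsto d atTop (𝓝[>] 0) := tendsto_nhdsWithin_iff.2 ⟨hd.t0, hd.pos⟩
  have h3 := h1.comp h2
  have h4 : ∀ᶠ T : ℝ in atTop, |Real.log (d T) * d T ^ s| < c / 4 := by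
    have := (Metric.tendsto_nhds.1 h3) (c / 4) (by positivity)
    filter_upwards [this] with T hT
    rw [Real.dist_eq, sub_zero] at hT
    exact hT
  filter_upwards [h4, hd.sm] with T h5 ⟨h6, h7⟩
  have h8 : 0 < d T ^ s := Real.rpow_pos_of_pos h6 _
  have h9 : Real.log (d T) < 0 := Real.log_neg h6 (by linarith)
  rw [abs_of_nonpos (mul_nonpos_of_nonpos_of_nonneg h9.le h8.le)] at h5
  have h10 : Real.log (1 / (2 * d T)) ≤ -Real.log (d T) := by
    rw [one_div, Real.log_inv]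
    have := Real.log_le_log h6 (show d T ≤ 2 * d T by linarith)
    linarith
  have h11 : 1 ≤ -Real.log (d T) := by
    have h12 : Real.log (d T) ≤ Real.log (Real.exp (-1)) := Real.log_le_log h6 (by
      have := Real.exp_neg_one_gt_d9
      linarith)
    rw [Real.log_exp] at h12
    linarith
  have h12 : Real.sqrt (Real.pi * Real.log (1 / (2 * d T))) ≤ 4 * (-Real.log (d T)) := by
    rw [Real.sqrt_le_left (by linarith)]
    have h13 := Real.pi_lt_four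
    have h14 := Real.pi_pos
    nlinarith
  calc d T ^ s * Real.sqrt (Real.pi * Real.log (1 / (2 * d T))) ≤ d T ^ s * (4 * (-Real.log (d T))) :=
        mul_le_mul_of_nonneg_left h12 h8.le
    _ ≤ c := by linarith

lemma mu_pos {V δ : ℝ} (hV : 0 < V) (ha : 0 < (aC V).re) (h0 : 0 < δ) (h1 : δ < 1 / 2) : 0 < mu V δ := by
  unfold mu
  have h2 : 0 < Real.log (1 / (2 * δ)) := Real.log_pos (by rw [lt_div_iff₀ (by linarith)]; linarith)
  have h3 := Real.pi_pos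
  have h4 : (0:ℝ) < (2 * δ) ^ (V ^ 2) := Real.rpow_pos_of_pos (by linarith) _
  positivity

lemma mu_low {V : ℝ} (hV : 0 < V) (ha : 0 < (aC V).re) {d : ℝ → ℝ} (hd : Ad d) (s c : ℝ) (hs : 0 < s) (hc : 0 < c) :
    ∀ᶠ T : ℝ in atTop, c * d T ^ (V ^ 2 + s) ≤ mu V (d T) := by
  filter_upwards [log_pw hd s ((aC V).re / (2 * V * c)) hs (by positivity), hd.sm] with T h1 ⟨h2, h3⟩
  have h4 : 0 < Real.log (1 / (2 * d T)) := Real.log_pos (by rw [lt_div_iff₀ (by linarith)]; linarith)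
  have h5 := Real.pi_pos
  have h6 : 0 < Real.sqrt (Real.pi * Real.log (1 / (2 * d T))) := Real.sqrt_pos.2 (by positivity)
  unfold mu
  rw [le_div_iff₀ (by positivity), Real.rpow_add h2]
  have h7 : d T ^ (V ^ 2) ≤ (2 * d T) ^ (V ^ 2) := Real.rpow_le_rpow h2.le (by linarith) (by positivity)
  have h8 : 0 < d T ^ (V ^ 2) := Real.rpow_pos_of_pos h2 _
  rw [le_div_iff₀ (by positivity)] at h1
  calc c * (d T ^ (V ^ 2) * d T ^ s) * (2 * V * Real.sqrt (Real.pi * Real.log (1 / (2 * d T))))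
      = (d T ^ s * Real.sqrt (Real.pi * Real.log (1 / (2 * d T))) * (2 * V * c)) * d T ^ (V ^ 2) := by ring
    _ ≤ (aC V).re * d T ^ (V ^ 2) := mul_le_mul_of_nonneg_right h1 h8.le
    _ ≤ _ := mul_le_mul_of_nonneg_left h7 ha.le

/-- the first moment -/
lemma ut1 (hU : S_UT) {V : ℝ} (hV : 0 < V) (ha : 0 < (aC V).re) {d : ℝ → ℝ} (hd : Ad d) (ε : ℝ) (hε : 0 < ε) :
    ∀ᶠ T : ℝ in atTop, (1 - ε) * mu V (d T) * T ≤ ∫ s in (0:ℝ)..T, ind (SL ((2 * d T) ^ (-V)) (d T)) s := by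
  have h1 := hU d ⟨hd.pos, hd.t0, hd.tL⟩ V hV
  have hr : 0 < (aC V).re / (2 * V) := by positivity
  have h2 := h1.eventually (lt_mem_nhds (show (1 - ε) * ((aC V).re / (2 * V)) < (aC V).re / (2 * V) by nlinarith))
  filter_upwards [h2, hd.sm, eventually_gt_atTop 0] with T h3 ⟨h4, h5⟩ hT
  rw [ind_int (SL_meas h4 (by linarith)) hT.le]
  have e1 : SL ((2 * d T) ^ (-V)) (d T) ∩ Set.Icc 0 T = {t : ℝ | 0 ≤ t ∧ t ≤ T ∧ (2 * d T) ^ (-V) < mz (d T) t} := by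
    ext u
    simp only [SL, Set.mem_setOf_eq, Set.mem_inter_iff, Set.mem_Icc]
    tauto
  rw [e1]
  generalize (volume {t : ℝ | 0 ≤ t ∧ t ≤ T ∧ (2 * d T) ^ (-V) < mz (d T) t}).toReal = W at h3 ⊢
  have h6 : 0 < Real.log (1 / (2 * d T)) := Real.log_pos (by rw [lt_div_iff₀ (by linarith)]; linarith)
  have h7 := Real.pi_pos
  have h8 : 0 < Real.sqrt (Real.pi * Real.log (1 / (2 * d T))) := Real.sqrt_pos.2 (by positivity)
  have h9 : (0:ℝ) < (2 * d T) ^ (V ^ 2) := Real.rpow_pos_of_pos (by linarith) _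
  rw [Real.rpow_neg (by linarith)] at h3
  unfold mu
  generalize Real.sqrt (Real.pi * Real.log (1 / (2 * d T))) = S at h3 h8 ⊢
  generalize (2 * d T) ^ (V ^ 2) = Q at h3 h9 ⊢
  have h10 : S * Q⁻¹ * (1 / T * W) = S * W / (Q * T) := by field_simp
  rw [h10, lt_div_iff₀ (by positivity)] at h3
  have h11 : (1 - ε) * ((aC V).re * Q / (2 * V * S)) * T = (1 - ε) * ((aC V).re / (2 * V)) * (Q * T) / S := by
    field_simp
  rw [h11, div_le_iff₀ h8]
  linarith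

/-- the bad points -/
lemma bad1 (hB : S_BADM) {V : ℝ} (hV : 0 < V) (ha : 0 < (aC V).re) {d : ℝ → ℝ} (hd : Ad d) (εb : ℝ) (hεb : 0 < εb)
    (M N : ℕ) (hM : 1 ≤ M) (hN : 1 ≤ N) (ε : ℝ) (hε : 0 < ε) :
    ∀ᶠ T : ℝ in atTop, ∫ s in (0:ℝ)..(2 * T), (ind (SL ((2 * d T) ^ (-V)) (d T)) s -
      ind (SG V εb M N ((2 * d T) ^ (-V)) (d T)) s) ≤ ε * mu V (d T) * T := by
  obtain ⟨C, hC, h⟩ := hB V (V ^ 2 + 1) εb hV (by positivity) hεb M N hM hN
  filter_upwards [ev_ad2 h hd, hd.sm, eventually_gt_atTop 0,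
    mu_low hV ha hd (1 / 2) (4 / ε) (by norm_num) (by positivity),
    mu_low hV ha hd (εb ^ 2 / 4) (1 / ε) (by positivity) (by positivity),
    hd.pw (εb ^ 2 / 4) (1 / (4 * C * 2 ^ (2 * V ^ 2))) (by positivity) (by positivity)] with
    T h1 ⟨h2, h3⟩ hT h4 h5 h6
  have h2' : (0:ℝ) < 2 * d T := by linarith
  have hc : 0 < (2 * d T) ^ (-V) := Real.rpow_pos_of_pos h2' _
  have h7 := h1 ((2 * d T) ^ (-V)) hc
  have hd2 : d T < 1 / 2 := by linarith
  have e1 : ∀ s, ind (SL ((2 * d T) ^ (-V)) (d T)) s - ind (SG V εb M N ((2 * d T) ^ (-V)) (d T)) s =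
      ind (SL ((2 * d T) ^ (-V)) (d T) \ SG V εb M N ((2 * d T) ^ (-V)) (d T)) s := by
    intro s
    unfold ind
    by_cases ha : s ∈ SL ((2 * d T) ^ (-V)) (d T)
    · by_cases hb : s ∈ SG V εb M N ((2 * d T) ^ (-V)) (d T)
      · rw [Set.indicator_of_mem ha, Set.indicator_of_mem hb, Set.indicator_of_notMem (fun h => h.2 hb)]
        norm_num
      · rw [Set.indicator_of_mem ha, Set.indicator_of_notMem hb, Set.indicator_of_mem (Set.mem_diff_of_mem ha hb)]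
        norm_num
    · have hb : s ∉ SG V εb M N ((2 * d T) ^ (-V)) (d T) := fun h => ha (SG_sub h)
      rw [Set.indicator_of_notMem ha, Set.indicator_of_notMem hb, Set.indicator_of_notMem (fun h => ha h.1)]
      norm_num
  simp_rw [e1]
  rw [ind_int ((SL_meas h2 hd2).diff (SG_meas h2 hd2)) (by linarith)]
  have e2 : (SL ((2 * d T) ^ (-V)) (d T) \ SG V εb M N ((2 * d T) ^ (-V)) (d T)) ∩ Set.Icc 0 (2 * T) =
      {t : ℝ | 0 ≤ t ∧ t ≤ 2 * T ∧ (2 * d T) ^ (-V) < mz (d T) t ∧ ¬ Gd V εb M N (d T) t} := by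
    ext u
    simp only [SL, SG, Set.mem_setOf_eq, Set.mem_inter_iff, Set.mem_Icc, Set.mem_diff]
    tauto
  rw [e2]
  have h8 := ENNReal.toReal_mono ENNReal.ofReal_ne_top h7
  have hp1 : 0 < d T ^ (V ^ 2 + 1) := Real.rpow_pos_of_pos h2 _
  have hp2 : 0 < d T ^ (-V ^ 2 + εb ^ 2 / 2) := Real.rpow_pos_of_pos h2 _
  have hp3 : 0 < ((2 * d T) ^ (-V)) ^ (-(2 * V)) := Real.rpow_pos_of_pos hc _
  rw [ENNReal.toReal_ofReal (by positivity)] at h8
  refine h8.trans ?_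
  have e3 : ((2 * d T) ^ (-V)) ^ (-(2 * V)) = 2 ^ (2 * V ^ 2) * d T ^ (2 * V ^ 2) := by
    rw [← Real.rpow_mul h2'.le, Real.mul_rpow (by norm_num) h2.le]
    congr 2 <;> ring
  have e4 : d T ^ (2 * V ^ 2) * d T ^ (-V ^ 2 + εb ^ 2 / 2) = d T ^ (V ^ 2 + εb ^ 2 / 4) * d T ^ (εb ^ 2 / 4) := by
    rw [← Real.rpow_add h2, ← Real.rpow_add h2]
    congr 1
    ring
  have h9 : C * ((2 * d T) ^ (-V)) ^ (-(2 * V)) * d T ^ (-V ^ 2 + εb ^ 2 / 2) ≤ ε * mu V (d T) / 4 := by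
    calc C * ((2 * d T) ^ (-V)) ^ (-(2 * V)) * d T ^ (-V ^ 2 + εb ^ 2 / 2)
        = C * 2 ^ (2 * V ^ 2) * d T ^ (εb ^ 2 / 4) * d T ^ (V ^ 2 + εb ^ 2 / 4) := by
          rw [e3, mul_assoc, mul_assoc, e4]
          ring
      _ ≤ (1 / 4) * (ε * mu V (d T)) := by
          refine mul_le_mul ?_ ?_ (Real.rpow_nonneg h2.le _) (by norm_num)
          · rw [lt_div_iff₀ (by positivity)] at h6
            linarith
          · rw [one_div, inv_mul_le_iff₀ hε] at h5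
            exact h5
      _ = _ := by ring
  have h10 : d T ^ (V ^ 2 + 1) ≤ ε * mu V (d T) / 4 := by
    have h11 : d T ^ (V ^ 2 + 1) ≤ d T ^ (V ^ 2 + 1 / 2) :=
      Real.rpow_le_rpow_of_exponent_ge h2 (by linarith) (by linarith)
    rw [div_mul_eq_mul_div, div_le_iff₀ hε] at h4
    linarith
  nlinarith [mul_le_mul_of_nonneg_left (add_le_add h10 h9) (show (0:ℝ) ≤ 2 * T by linarith)]

end Pool.Agent.V5helper51.PL
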