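import Pool.Agent.V5helper51.PL.Sec

set_option autoImplicit false

/-!
# Project PL: the proportion of the large values in almost all windows
-/

namespace Pool.Agent.V5helper51.PL

open Filter MeasureTheory Topology
open Pool.Agent.N748.MG (mz pw Ev aC S_UT)
open Pool.Agent.N748.MJ (S_CONV S_POSV aV)
open Pool.Agent.V5helper51.HM (Ad Neg frac)

lemma z1_cont {δ : ℝ} (hδ : 0 < δ) : Continuous (z1 δ) := by
  unfold z1
  refine continuous_norm.comp (continuous_iff_continuousAt.2 fun x => ?_)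
  have h1 : (((1 + 2 * δ : ℝ) : ℂ) + (x : ℂ) * Complex.I) ≠ 1 := by
    intro h
    have := congrArg Complex.re h
    simp at this
    linarith
  have h2 : ContinuousAt riemannZeta (((1 + 2 * δ : ℝ) : ℂ) + (x : ℂ) * Complex.I) :=
    (differentiableAt_riemannZeta h1).continuousAt
  exact ContinuousAt.comp (f := fun x : ℝ => ((1 + 2 * δ : ℝ) : ℂ) + (x : ℂ) * Complex.I) h2 (by fun_prop)

lemma vec_cont (V : ℂ) : Continuous fun h : ℝ => ((![V, V], ![V, V], ![0, h]) :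
        (Fin 2 → ℂ) × (Fin 2 → ℂ) × (Fin 2 → ℝ)) := by
  refine continuous_const.prodMk (continuous_const.prodMk ?_)
  refine continuous_pi fun i => ?_
  fin_cases i
  · exact continuous_const
  · exact continuous_id

lemma a2_cont (hC : S_CONV) (V : ℂ) : Continuous fun h : ℝ => a2 V V h := by
  have h2 := vec_cont V
  have h3 := hC 2
  have h4 := Continuous.comp h3 h2
  have e : (fun h : ℝ => a2 V V h) = (fun q : (Fin 2 → ℂ) × (Fin 2 → ℂ) × (Fin 2 → ℝ) => aV q.1 q.2.1 q.2.2) ∘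
    (fun h : ℝ => ((![V, V], ![V, V], ![0, h]) : (Fin 2 → ℂ) × (Fin 2 → ℂ) × (Fin 2 → ℝ))) := by
    funext h
    rw [Function.comp_apply, a2]
  rw [e]
  exact h4

lemma ka_cont (hC : S_CONV) {V : ℝ} {δ : ℝ} (hδ : 0 < δ) : Continuous (ka V δ) := by
  have h1 := a2_cont hC (V : ℂ)
  have h2 : Continuous fun h : ℝ => (a2 V V h).re / (aC V).re ^ 2 := (Complex.continuous_re.comp h1).div_const _
  have h3 : Continuous fun h : ℝ => z1 δ h ^ (2 * V ^ 2) := (z1_cont hδ).rpow_const fun x => Or.inr (by positivity)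
  exact h2.mul h3

lemma a2_nonneg (hP : S_POSV) (V h : ℝ) : 0 ≤ (a2 V V h).re := by
  obtain ⟨c, C, hc, hC, h1⟩ := hP 2 |V| (abs_nonneg _)
  obtain ⟨a, ha1, ha2⟩ := (h1 ![0, h]).2 ![V, V] (by intro j; fin_cases j <;> simp)
  have e : (fun j => ((![V, V] : Fin 2 → ℝ) j : ℂ)) = ![(V:ℂ), V] := by
    funext j
    fin_cases j <;> rfl
  rw [e] at ha2
  have e2 : a2 V V h = (a : ℂ) := ha2
  rw [e2, Complex.ofReal_re]
  linarith

lemma ka_nonneg (hP : S_POSV) (V δ h : ℝ) : 0 ≤ ka V δ h := by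
  unfold ka
  have h1 := a2_nonneg hP V h
  have h2 : 0 ≤ z1 δ h := norm_nonneg _
  positivity

/-- pairs of points -/
lemma pair_int {S : Set ℝ} (hS : MeasurableSet S) {u x T X : ℝ} (hu : 0 ≤ u) (hT : 0 ≤ T) (hX : T + u ≤ X) :
    ∫ t in (0:ℝ)..T, ind S (t + u) * ind S (t + u + x) ≤ (volume {s : ℝ | 0 ≤ s ∧ s ≤ X ∧ s ∈ S ∧ s + x ∈ S}).toReal := by
  have e0 : ∀ s, ind S s * ind S (s + x) = ind (S ∩ (fun s => s + x) ⁻¹' S) s := by
    intro s
    unfold ind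
    by_cases h1 : s ∈ S
    · by_cases h2 : s + x ∈ S
      · rw [Set.indicator_of_mem h1, Set.indicator_of_mem h2, Set.indicator_of_mem (Set.mem_inter h1 h2), one_mul]
      · rw [Set.indicator_of_notMem h2, mul_zero]
        exact (Set.indicator_of_notMem (fun h : s ∈ S ∩ (fun s => s + x) ⁻¹' S => h2 h.2) _).symm
    · rw [Set.indicator_of_notMem h1, zero_mul]
      exact (Set.indicator_of_notMem (fun h : s ∈ S ∩ (fun s => s + x) ⁻¹' S => h1 h.1) _).symm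
  have hS2 : MeasurableSet (S ∩ (fun s => s + x) ⁻¹' S) := hS.inter ((measurable_id.add_const x) hS)
  have e1 : ∫ t in (0:ℝ)..T, ind S (t + u) * ind S (t + u + x) = ∫ s in u..(T + u), ind (S ∩ (fun s => s + x) ⁻¹' S) s := by
    have e2 := intervalIntegral.integral_comp_add_right (a := 0) (b := T)
      (fun s => ind (S ∩ (fun s => s + x) ⁻¹' S) s) u
    rw [zero_add] at e2
    rw [← e2]
    refine intervalIntegral.integral_congr fun t _ => ?_
    exact e0 (t + u)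
  rw [e1, ind_int hS2 (by linarith)]
  refine ENNReal.toReal_mono ?_ (measure_mono ?_)
  · exact ne_top_of_le_ne_top (by simp) (measure_mono (t := Set.Icc 0 X) fun s hs => ⟨hs.1, hs.2.1⟩)
  · rintro s ⟨⟨h1, h2⟩, h3, h4⟩
    exact ⟨by linarith, by linarith, h1, h2⟩

lemma pair_int2 {S : Set ℝ} (hS : MeasurableSet S) {u x T H : ℝ} (hu : 0 ≤ u) (hT : 0 ≤ T) (hH : u ≤ H) :
    ∫ t in (0:ℝ)..T, ind S (t + u) * ind S (t + u + x) ≤
      (volume {s : ℝ | 0 ≤ s ∧ s ≤ T ∧ s ∈ S ∧ s + x ∈ S}).toReal + H := by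
  refine (pair_int (x := x) hS hu hT le_rfl).trans ?_
  have hsub : {s : ℝ | 0 ≤ s ∧ s ≤ T + u ∧ s ∈ S ∧ s + x ∈ S} ⊆
      {s : ℝ | 0 ≤ s ∧ s ≤ T ∧ s ∈ S ∧ s + x ∈ S} ∪ Set.Icc T (T + u) := by
    rintro s ⟨h1, h2, h3⟩
    by_cases h4 : s ≤ T
    · exact Or.inl ⟨h1, h4, h3⟩
    · exact Or.inr ⟨(not_le.1 h4).le, h2⟩
  have hf1 : volume {s : ℝ | 0 ≤ s ∧ s ≤ T ∧ s ∈ S ∧ s + x ∈ S} ≠ ⊤ :=
    ne_top_of_le_ne_top (by simp) (measure_mono (t := Set.Icc 0 T) fun s hs => ⟨hs.1, hs.2.1⟩)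
  have hf2 : volume (Set.Icc T (T + u)) ≠ ⊤ := by simp
  have h1 := ENNReal.toReal_mono (ENNReal.add_ne_top.2 ⟨hf1, hf2⟩) ((measure_mono hsub).trans (measure_union_le _ _))
  rw [ENNReal.toReal_add hf1 hf2, Real.volume_Icc, add_sub_cancel_left, ENNReal.toReal_ofReal hu] at h1
  linarith

/-- the second moment, in terms of powers -/
lemma sec2 (hN : S_NEARM) (hF : S_FAR2) (hK : S_KAV) (hVAR : S_VAR) (hC : S_CONV) (hP : S_POSV) {V θ D : ℝ} (hV : 0 < V)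
    (ha : 0 < (aC V).re) (hθ : 0 < θ) (hVθ : V ^ 2 - 1 < θ) {d H : ℝ → ℝ} (hd : Ad d)
    (hH : ∀ᶠ T : ℝ in atTop, d T ^ (-θ) ≤ H T ∧ H T ≤ d T ^ (-D)) :
    ∃ (εb : ℝ) (M N : ℕ), 0 < εb ∧ 1 ≤ M ∧ 1 ≤ N ∧ ∀ ε : ℝ, 0 < ε → ε ≤ 1 → ∀ᶠ T : ℝ in atTop,
      H T ≤ ε * mu V (d T) ^ 2 * T ∧
      ∫ t in (0:ℝ)..T, (Av (ind (SG V εb M N ((2 * d T) ^ (-V)) (d T))) (H T) t) ^ 2 ≤
        (1 + 15 * ε) * mu V (d T) ^ 2 * T := by
  -- the parameters
  obtain ⟨β, hβ1, hβ2⟩ := exists_between (show max 0 (V ^ 2 - 1) < min θ (V ^ 2) from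
    max_lt (lt_min hθ (by positivity)) (lt_min hVθ (by linarith)))
  have hβ0 : 0 < β := (le_max_left _ _).trans_lt hβ1
  have hβV : V ^ 2 - 1 < β := (le_max_right _ _).trans_lt hβ1
  have hβθ : β < θ := hβ2.trans_le (min_le_left _ _)
  have hβV2 : β < V ^ 2 := hβ2.trans_le (min_le_right _ _)
  set s : ℝ := (θ - β) / 4 with hs
  have hs0 : 0 < s := by rw [hs]; linarith
  obtain ⟨N, hNN⟩ := exists_nat_gt (6 * V ^ 2 / s)
  have hN0 : (0:ℝ) < N := lt_trans (by positivity) hNN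
  have hN1 : 1 ≤ N := by exact_mod_cast hN0
  set εb : ℝ := s / (4 * V) with hεb
  have hεb0 : 0 < εb := by rw [hεb]; positivity
  have hsum : V ^ 2 / N + 2 * V ^ 2 / N + 2 * V * εb ≤ s := by
    rw [div_lt_iff₀ hs0] at hNN
    have h1 : V ^ 2 / N + 2 * V ^ 2 / N ≤ s / 2 := by
      rw [← add_div, div_le_iff₀ hN0]
      linarith
    have h2 : 2 * V * εb = s / 2 := by rw [hεb]; field_simp; ring
    linarith
  refine ⟨εb, N, N, hεb0, hN1, hN1, fun ε hε hε1 => ?_⟩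
  obtain ⟨C, hC0, hNE⟩ := hN V (2 * V ^ 2 + 2 * s) εb hV (by positivity) hεb0 N N hN1 hN1
  obtain ⟨δ0, hδ0, hKA⟩ := hK V (θ / 2) ε hV (by positivity) hε
  have hD1 : 0 < max D 1 := lt_of_lt_of_le one_pos (le_max_right _ _)
  have hFA := hF V (max D 1) ε hV hD1 hε
  set K1 : ℝ := 2 * C * 2 ^ (4 * V ^ 2) / (1 - (V ^ 2 - β)) with hK1
  have hK10 : 0 < K1 := by
    rw [hK1]
    have : 0 < 1 - (V ^ 2 - β) := by linarith
    positivity
  set c0 : ℝ := Real.sqrt (2 * (2 + K1) / ε) with hc0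
  have hc00 : 0 < c0 := Real.sqrt_pos.2 (by positivity)
  have hc0sq : c0 ^ 2 = 2 * (2 + K1) / ε := Real.sq_sqrt (by positivity)
  filter_upwards [ev_ad2 hNE hd, ev_ad hFA hd, hd.ev 1 δ0 hδ0, hH, hd.sm, eventually_gt_atTop 0,
    mu_low hV ha hd s c0 hs0 hc00, mu_low hV ha hd 1 1 one_pos one_pos, hd.pw (θ / 2) ε (by positivity) hε,
    pwT hd (max D 1 + 2 * (V ^ 2 + 1)) ε (by positivity) hε, pwT hd (max D 1) 1 hD1.le one_pos] with
    T h1 h2 ⟨h3, h4, h5⟩ ⟨h6, h7⟩ ⟨h8, h9⟩ hT h10 h11 h12 h13 h14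
  have hd1 : d T < 1 / 2 := by linarith
  have hd1' : d T < 1 := by linarith
  have h2d : (0:ℝ) < 2 * d T := by linarith
  have hHD : H T ≤ d T ^ (-(max D 1)) :=
    h7.trans (Real.rpow_le_rpow_of_exponent_ge h3 hd1'.le (by linarith [le_max_left D 1]))
  have hH1 : 1 ≤ H T := (Real.one_le_rpow_of_pos_of_le_one_of_nonpos h3 hd1'.le (by linarith)).trans h6
  have hH0 : 0 < H T := by linarith
  have hHT : H T ≤ T := by linarith
  have hmu : 0 < mu V (d T) := mu_pos hV ha h3 hd1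
  have hmu2 : 0 < mu V (d T) ^ 2 := by positivity
  -- H is small
  have hHs : H T ≤ ε * mu V (d T) ^ 2 * T := by
    have e1 : d T ^ (-(max D 1)) = d T ^ (-(max D 1 + 2 * (V ^ 2 + 1))) * (1 * d T ^ (V ^ 2 + 1)) ^ 2 := by
      rw [one_mul, ← Real.rpow_mul_natCast h3.le, ← Real.rpow_add h3]
      congr 1
      push_cast
      ring
    have e2 : (1 * d T ^ (V ^ 2 + 1)) ^ 2 ≤ mu V (d T) ^ 2 :=
      pow_le_pow_left₀ (by positivity) h11 2
    calc H T ≤ d T ^ (-(max D 1)) := hHD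
      _ = d T ^ (-(max D 1 + 2 * (V ^ 2 + 1))) * (1 * d T ^ (V ^ 2 + 1)) ^ 2 := e1
      _ ≤ (ε * T) * mu V (d T) ^ 2 := mul_le_mul h13 e2 (by positivity) (by positivity)
      _ = _ := by ring
  refine ⟨hHs, ?_⟩
  set c : ℝ := (2 * d T) ^ (-V) with hc
  have hcp : 0 < c := Real.rpow_pos_of_pos h2d _
  set S : Set ℝ := SG V εb N N c (d T) with hS
  have hSm : MeasurableSet S := SG_meas h3 hd1
  set E : ℝ := 2 * V ^ 2 + V ^ 2 / N + 2 * V ^ 2 / N + 2 * V * εb with hE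
  have hcc : c ^ (-(4 * V)) = 2 ^ (4 * V ^ 2) * d T ^ (4 * V ^ 2) := by
    rw [hc, ← Real.rpow_mul h2d.le, Real.mul_rpow (by norm_num) h3.le]
    congr 2 <;> ring
  have hA0 : 0 ≤ 2 * d T ^ (2 * V ^ 2 + 2 * s) := by positivity
  have hP0 : 0 ≤ 2 * (C * c ^ (-(4 * V)) * d T ^ (-E)) := by positivity
  have hm0 : 0 ≤ (1 + ε) * mu V (d T) ^ 2 := by positivity
  have main := sec_mom hVAR (F := ind S) (ind_meas hSm) (ind0 S) (ind1 S) (T := T) (H := H T) (δ := d T)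
    (A := 2 * d T ^ (2 * V ^ 2 + 2 * s)) (P := 2 * (C * c ^ (-(4 * V)) * d T ^ (-E)))
    (m := (1 + ε) * mu V (d T) ^ 2) (ε := ε) (y0 := d T ^ (-(θ / 2))) (q := V ^ 2) (β := β) (κ := ka V (d T))
    (ka_cont hC h3) hT hH1 h3 hA0 hP0 hm0 hε.le hβ0.le (by linarith) (by linarith)
    (by
      intro u x hu hx hx1 hux
      refine (pair_int (X := 2 * T) hSm hu hT.le (by linarith)).trans ?_
      have h15 := h1 c hcp x (by rw [abs_of_nonneg hx]; exact hx1)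
      rw [abs_of_nonneg hx] at h15
      have h16 : volume {s : ℝ | 0 ≤ s ∧ s ≤ 2 * T ∧ s ∈ S ∧ s + x ∈ S} ≤ volume {t : ℝ | 0 ≤ t ∧ t ≤ 2 * T ∧
          c < mz (d T) t ∧ c < mz (d T) (t + x) ∧ Gd V εb N N (d T) t} := by
        refine measure_mono ?_
        rintro t ⟨g1, g2, g3, g4⟩
        exact ⟨g1, g2, g3.1, g4.1, g3.2⟩
      have h17 := ENNReal.toReal_mono ENNReal.ofReal_ne_top (h16.trans h15)
      have h18 : 0 ≤ (max x (d T)) ^ (-V ^ 2) := Real.rpow_nonneg (le_max_of_le_right h3.le) _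
      rw [ENNReal.toReal_ofReal (by positivity)] at h17
      refine h17.trans (le_of_eq ?_)
      ring)
    (by
      intro u x hu hx hux
      refine (pair_int2 (H := H T) hSm hu hT.le (by linarith)).trans (add_le_add_left ?_ _)
      have h15 := h2 x (by rw [abs_of_pos (by linarith)]; exact hx.le) (by
        rw [abs_of_pos (by linarith)]
        linarith)
      have h16 : volume {s : ℝ | 0 ≤ s ∧ s ≤ T ∧ s ∈ S ∧ s + x ∈ S} ≤ volume {t : ℝ | 0 ≤ t ∧ t ≤ T ∧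
          (2 * d T) ^ (-V) < mz (d T) t ∧ (2 * d T) ^ (-V) < mz (d T) (t + x)} := by
        refine measure_mono ?_
        rintro t ⟨g1, g2, g3, g4⟩
        exact ⟨g1, g2, g3.1, g4.1⟩
      have h17 := ENNReal.toReal_mono ENNReal.ofReal_ne_top (h16.trans h15)
      rw [ENNReal.toReal_ofReal'] at h17
      refine h17.trans (max_le (le_of_eq (by ring)) ?_)
      have h18 := ka_nonneg hP V (d T) x
      positivity)
    (by
      intro y hy1 hy2
      have hyp : 0 < d T ^ (-(θ / 2)) := Real.rpow_pos_of_pos h3 _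
      rcases le_total (d T ^ (-(θ / 2))) y with h18 | h18
      · refine (hKA (d T) h3 h4 y h18).trans ?_
        exact mul_le_mul_of_nonneg_left (by linarith) (by linarith)
      · have h19 := hKA (d T) h3 h4 (d T ^ (-(θ / 2))) le_rfl
        have hii : ∀ a b : ℝ, IntervalIntegrable (ka V (d T)) volume a b := fun a b =>
          (ka_cont hC h3).intervalIntegrable _ _
        have h20 := intervalIntegral.integral_add_adjacent_intervals (hii 1 y) (hii y (d T ^ (-(θ / 2))))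
        have h21 : 0 ≤ ∫ x in y..(d T ^ (-(θ / 2))), ka V (d T) x :=
          intervalIntegral.integral_nonneg h18 fun x _ => ka_nonneg hP V (d T) x
        have h22 : (1 + ε) * d T ^ (-(θ / 2)) ≤ (1 + ε) * (y + d T ^ (-(θ / 2))) :=
          mul_le_mul_of_nonneg_left (by linarith) (by linarith)
        linarith)
    (by positivity)
  refine main.trans ?_
  -- the near part
  have hHi : 1 / H T ≤ d T ^ θ := by
    rw [div_le_iff₀ hH0]
    calc (1:ℝ) = d T ^ θ * d T ^ (-θ) := by rw [← Real.rpow_add h3]; simp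
      _ ≤ d T ^ θ * H T := mul_le_mul_of_nonneg_left h6 (by positivity)
  have hp2 : 0 < d T ^ (2 * V ^ 2 + 2 * s) := Real.rpow_pos_of_pos h3 _
  have n1 : d T ^ θ * (2 * d T ^ (2 * V ^ 2 + 2 * s)) ≤ 2 * d T ^ (2 * V ^ 2 + 2 * s) := by
    have : d T ^ θ ≤ 1 := Real.rpow_le_one h3.le hd1'.le hθ.le
    nlinarith
  have n2 : d T ^ θ * (2 * (C * c ^ (-(4 * V)) * d T ^ (-E)) * (d T ^ (-β) / (1 - (V ^ 2 - β)))) ≤
      K1 * d T ^ (2 * V ^ 2 + 2 * s) := by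
    have e1 : d T ^ θ * (2 * (C * c ^ (-(4 * V)) * d T ^ (-E)) * (d T ^ (-β) / (1 - (V ^ 2 - β)))) =
        K1 * (d T ^ θ * d T ^ (4 * V ^ 2) * d T ^ (-E) * d T ^ (-β)) := by
      rw [hcc, hK1]
      ring
    rw [e1, ← Real.rpow_add h3, ← Real.rpow_add h3, ← Real.rpow_add h3]
    refine mul_le_mul_of_nonneg_left ?_ hK10.le
    refine Real.rpow_le_rpow_of_exponent_ge h3 hd1'.le ?_
    rw [hE]
    have : θ - β = 4 * s := by rw [hs]; ring
    nlinarith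
  have n3 : (2 * T / H T) * (2 * d T ^ (2 * V ^ 2 + 2 * s) +
      2 * (C * c ^ (-(4 * V)) * d T ^ (-E)) * (d T ^ (-β) / (1 - (V ^ 2 - β)))) ≤ ε * mu V (d T) ^ 2 * T := by
    have hX : 0 ≤ 2 * d T ^ (2 * V ^ 2 + 2 * s) +
        2 * (C * c ^ (-(4 * V)) * d T ^ (-E)) * (d T ^ (-β) / (1 - (V ^ 2 - β))) := by
      have : 0 < 1 - (V ^ 2 - β) := by linarith
      positivity
    have e1 : (c0 * d T ^ (V ^ 2 + s)) ^ 2 = 2 * (2 + K1) / ε * d T ^ (2 * V ^ 2 + 2 * s) := by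
      rw [mul_pow, hc0sq, ← Real.rpow_mul_natCast h3.le]
      congr 2
      push_cast
      ring
    have e2 : (c0 * d T ^ (V ^ 2 + s)) ^ 2 ≤ mu V (d T) ^ 2 := pow_le_pow_left₀ (by positivity) h10 2
    rw [e1] at e2
    calc (2 * T / H T) * (2 * d T ^ (2 * V ^ 2 + 2 * s) +
          2 * (C * c ^ (-(4 * V)) * d T ^ (-E)) * (d T ^ (-β) / (1 - (V ^ 2 - β))))
        = 2 * T * ((1 / H T) * (2 * d T ^ (2 * V ^ 2 + 2 * s) +
          2 * (C * c ^ (-(4 * V)) * d T ^ (-E)) * (d T ^ (-β) / (1 - (V ^ 2 - β))))) := by ring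
      _ ≤ 2 * T * (d T ^ θ * (2 * d T ^ (2 * V ^ 2 + 2 * s) +
          2 * (C * c ^ (-(4 * V)) * d T ^ (-E)) * (d T ^ (-β) / (1 - (V ^ 2 - β))))) :=
          mul_le_mul_of_nonneg_left (mul_le_mul_of_nonneg_right hHi hX) (by positivity)
      _ ≤ 2 * T * ((2 + K1) * d T ^ (2 * V ^ 2 + 2 * s)) := by
          refine mul_le_mul_of_nonneg_left ?_ (by positivity)
          linarith
      _ = ε * (2 * (2 + K1) / ε * d T ^ (2 * V ^ 2 + 2 * s)) * T := by
          field_simp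
      _ ≤ _ := by
          refine mul_le_mul_of_nonneg_right (mul_le_mul_of_nonneg_left e2 hε.le) hT.le
  -- the far part
  have f1 : d T ^ (-(θ / 2)) / H T ≤ ε := by
    rw [div_le_iff₀ hH0]
    calc d T ^ (-(θ / 2)) = d T ^ (θ / 2) * d T ^ (-θ) := by
          rw [← Real.rpow_add h3]
          congr 1
          ring
      _ ≤ ε * H T := mul_le_mul h12.le h6 (by positivity) hε.le
  have f2 : T * ((1 + ε) * mu V (d T) ^ 2 * ((1 + ε) * (1 + 2 * d T ^ (-(θ / 2)) / H T) + ε)) ≤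
      (1 + 13 * ε) * mu V (d T) ^ 2 * T := by
    have g1 : 2 * d T ^ (-(θ / 2)) / H T ≤ 2 * ε := by
      rw [mul_div_assoc]
      linarith
    have g2 : (1 + ε) * (1 + 2 * d T ^ (-(θ / 2)) / H T) + ε ≤ (1 + ε) * (1 + 2 * ε) + ε := by
      have := mul_le_mul_of_nonneg_left g1 (show 0 ≤ 1 + ε by linarith)
      linarith
    have g3 : (1 + ε) * ((1 + ε) * (1 + 2 * d T ^ (-(θ / 2)) / H T) + ε) ≤ 1 + 13 * ε := by
      refine (mul_le_mul_of_nonneg_left g2 (show 0 ≤ 1 + ε by linarith)).trans ?_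
      nlinarith [mul_pos hε hε, mul_le_mul_of_nonneg_left hε1 (mul_pos hε hε).le]
    calc T * ((1 + ε) * mu V (d T) ^ 2 * ((1 + ε) * (1 + 2 * d T ^ (-(θ / 2)) / H T) + ε))
        = ((1 + ε) * ((1 + ε) * (1 + 2 * d T ^ (-(θ / 2)) / H T) + ε)) * (mu V (d T) ^ 2 * T) := by ring
      _ ≤ (1 + 13 * ε) * (mu V (d T) ^ 2 * T) := mul_le_mul_of_nonneg_right g3 (by positivity)
      _ = _ := by ring
  have f3 : (1 + 15 * ε) * mu V (d T) ^ 2 * T = (1 + 13 * ε) * mu V (d T) ^ 2 * T + ε * mu V (d T) ^ 2 * T +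
      ε * mu V (d T) ^ 2 * T := by ring
  rw [f3]
  linarith

end Pool.Agent.V5helper51.PL
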