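import Pool.Agent.V5helper51.PL.Main

set_option autoImplicit false

/-!
# Project PL: the second moment
-/

namespace Pool.Agent.V5helper51.PL

open Filter MeasureTheory Topology
open Pool.Agent.N748.MG (mz pw Ev aC S_UT)
open Pool.Agent.V5helper51.HM (Ad Neg frac)

lemma int_tri {κ : ℝ → ℝ} (hκ : Continuous κ) {H : ℝ} :
    ∫ x in (1:ℝ)..H, (H - x) * κ x = ∫ y in (1:ℝ)..H, ∫ x in (1:ℝ)..y, κ x := by
  have hd : ∀ y : ℝ, HasDerivAt (fun y => ∫ x in (1:ℝ)..y, κ x) (κ y) y := fun y =>
    intervalIntegral.integral_hasDerivAt_right (hκ.intervalIntegrable _ _)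
      hκ.stronglyMeasurable.stronglyMeasurableAtFilter hκ.continuousAt
  have hu : ∀ y : ℝ, HasDerivAt (fun y => H - y) (-1) y := fun y => by
    simpa using (hasDerivAt_id y).const_sub H
  have h1 := intervalIntegral.integral_mul_deriv_eq_deriv_mul (a := 1) (b := H) (fun y _ => hu y) (fun y _ => hd y)
    intervalIntegrable_const (hκ.intervalIntegrable _ _)
  simp only [sub_self, zero_mul, intervalIntegral.integral_same, mul_zero, neg_one_mul,
    intervalIntegral.integral_neg, zero_sub, neg_neg, sub_neg_eq_add, zero_add] at h1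
  exact h1

lemma int_lin {H : ℝ} (hH : 1 ≤ H) : ∫ x in (1:ℝ)..H, (H - x) ≤ H ^ 2 / 2 := by
  have h1 : ∫ x in (1:ℝ)..H, (H - x) = H * (H - 1) - (H ^ 2 - 1) / 2 := by
    rw [intervalIntegral.integral_sub intervalIntegrable_const intervalIntegral.intervalIntegrable_id,
      intervalIntegral.integral_const, integral_id]
    simp only [smul_eq_mul]
    ring
  rw [h1]
  nlinarith

lemma max_rpow {x δ q β : ℝ} (hx : 0 < x) (hδ : 0 < δ) (hβ : 0 ≤ β) (hq : 0 ≤ q - β) :
    (max x δ) ^ (-q) ≤ δ ^ (-β) * x ^ (-(q - β)) := by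
  have hm : 0 < max x δ := lt_max_of_lt_left hx
  have e : (max x δ) ^ (-q) = (max x δ) ^ (-β) * (max x δ) ^ (-(q - β)) := by
    rw [← Real.rpow_add hm]
    congr 1
    ring
  rw [e]
  refine mul_le_mul ?_ ?_ (Real.rpow_nonneg hm.le _) (Real.rpow_nonneg hδ.le _)
  · exact Real.rpow_le_rpow_of_nonpos hδ (le_max_right _ _) (by linarith)
  · exact Real.rpow_le_rpow_of_nonpos hx (le_max_left _ _) (by linarith)

lemma sec_mom (hVAR : S_VAR) {F : ℝ → ℝ} (hF : Measurable F) (h0 : ∀ s, 0 ≤ F s) (h1 : ∀ s, F s ≤ 1)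
    {T H δ A P m ε y0 q β : ℝ} {κ : ℝ → ℝ} (hκc : Continuous κ) (hT : 0 < T) (hH : 1 ≤ H) (hδ : 0 < δ) (hA : 0 ≤ A)
    (hP : 0 ≤ P) (hm : 0 ≤ m) (hε : 0 ≤ ε) (hβ : 0 ≤ β) (hq : 0 ≤ q - β) (hq1 : q - β < 1)
    (hnear : ∀ u x : ℝ, 0 ≤ u → 0 ≤ x → x ≤ 1 → u + x ≤ H →
      ∫ t in (0:ℝ)..T, F (t + u) * F (t + u + x) ≤ T * (A + P * (max x δ) ^ (-q)))
    (hfar : ∀ u x : ℝ, 0 ≤ u → 1 < x → u + x ≤ H →
      ∫ t in (0:ℝ)..T, F (t + u) * F (t + u + x) ≤ T * (m * (κ x + ε)) + H)
    (hκ : ∀ y : ℝ, 1 ≤ y → y ≤ H → ∫ x in (1:ℝ)..y, κ x ≤ (1 + ε) * (y + y0)) (hy0 : 0 ≤ y0) :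
    ∫ t in (0:ℝ)..T, (Av F H t) ^ 2 ≤ (2 * T / H) * (A + P * (δ ^ (-β) / (1 - (q - β)))) +
      T * (m * ((1 + ε) * (1 + 2 * y0 / H) + ε)) + H := by
  have hH0 : 0 < H := by linarith
  set g1 : ℝ → ℝ := fun x => T * (A + P * (max x δ) ^ (-q)) with hg1
  set g2 : ℝ → ℝ := fun x => T * (m * (κ x + ε)) + H with hg2
  have c1 : Continuous g1 := by
    refine continuous_const.mul (continuous_const.add (continuous_const.mul ?_))
    exact (continuous_id.max continuous_const).rpow_const fun x => Or.inl (lt_max_of_lt_right hδ).ne'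
  have c2 : Continuous g2 := by
    exact (continuous_const.mul (continuous_const.mul (hκc.add continuous_const))).add continuous_const
  set G : ℝ → ℝ := fun x => if x ≤ 1 then g1 x else g2 x with hG
  have i1 : IntervalIntegrable G volume 0 1 := by
    refine (c1.intervalIntegrable 0 1).congr ?_
    intro x hx
    rw [Set.uIoc_of_le zero_le_one] at hx
    simp only [hG, if_pos hx.2]
  have i2 : IntervalIntegrable G volume 1 H := by
    refine (c2.intervalIntegrable 1 H).congr ?_
    intro x hx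
    rw [Set.uIoc_of_le hH] at hx
    simp only [hG, if_neg (not_le.2 hx.1)]
  have hv := hVAR F G T H hF h0 h1 hH0 hT (i1.trans i2) (by
    intro u x hu hx hux
    by_cases hx1 : x ≤ 1
    · simp only [hG, if_pos hx1]
      exact hnear u x hu hx hx1 hux
    · simp only [hG, if_neg hx1]
      exact hfar u x hu (not_le.1 hx1) hux)
  have e1 : ∫ t in (0:ℝ)..T, (Av F H t) ^ 2 = (1 / H ^ 2) * ∫ t in (0:ℝ)..T, (∫ s in t..(t + H), F s) ^ 2 := by
    rw [← intervalIntegral.integral_const_mul]
    refine intervalIntegral.integral_congr fun t _ => ?_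
    simp only [Av]
    ring
  have j1 : IntervalIntegrable (fun x => (H - x) * G x) volume 0 1 :=
    i1.continuousOn_mul (continuous_const.sub continuous_id).continuousOn
  have j2 : IntervalIntegrable (fun x => (H - x) * G x) volume 1 H :=
    i2.continuousOn_mul (continuous_const.sub continuous_id).continuousOn
  have e2 : ∫ x in (0:ℝ)..H, (H - x) * G x = (∫ x in (0:ℝ)..1, (H - x) * g1 x) + ∫ x in (1:ℝ)..H, (H - x) * g2 x := by
    rw [← intervalIntegral.integral_add_adjacent_intervals j1 j2]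
    congr 1
    · refine intervalIntegral.integral_congr fun x hx => ?_
      rw [Set.uIcc_of_le zero_le_one] at hx
      simp only [hG, if_pos hx.2]
    · rw [intervalIntegral.integral_of_le hH, intervalIntegral.integral_of_le hH]
      refine setIntegral_congr_fun measurableSet_Ioc fun x hx => ?_
      simp only [hG, if_neg (not_le.2 hx.1)]
  have hr : (-1:ℝ) < -(q - β) := by linarith
  have b1 : ∫ x in (0:ℝ)..1, (H - x) * g1 x ≤ H * (T * (A + P * (δ ^ (-β) / (1 - (q - β))))) := by
    have hi : IntervalIntegrable (fun x : ℝ => x ^ (-(q - β))) volume 0 1 := intervalIntegral.intervalIntegrable_rpow' hr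
    have h2 : ∫ x in (0:ℝ)..1, (H - x) * g1 x ≤
        ∫ x in (0:ℝ)..1, (H * T * A + H * T * P * δ ^ (-β) * x ^ (-(q - β))) := by
      refine intervalIntegral.integral_mono_on_of_le_Ioo zero_le_one
        (((continuous_const.sub continuous_id).mul c1).intervalIntegrable _ _)
        (intervalIntegrable_const.add (hi.const_mul _)) fun x hx => ?_
      have h3 := max_rpow hx.1 hδ hβ hq
      have h4 : 0 ≤ g1 x := by
        have : 0 < (max x δ) ^ (-q) := Real.rpow_pos_of_pos (lt_max_of_lt_left hx.1) _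
        simp only [hg1]
        positivity
      calc (H - x) * g1 x ≤ H * g1 x := mul_le_mul_of_nonneg_right (by linarith [hx.1]) h4
        _ ≤ H * (T * (A + P * (δ ^ (-β) * x ^ (-(q - β))))) := by
            simp only [hg1]
            gcongr
        _ = _ := by ring
    refine h2.trans (le_of_eq ?_)
    rw [intervalIntegral.integral_add intervalIntegrable_const (hi.const_mul _), intervalIntegral.integral_const,
      intervalIntegral.integral_const_mul, integral_rpow (Or.inl hr), Real.one_rpow,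
      Real.zero_rpow (by linarith), smul_eq_mul]
    have h5 : -(q - β) + 1 = 1 - (q - β) := by ring
    rw [h5]
    ring
  have b2 : ∫ x in (1:ℝ)..H, (H - x) * g2 x ≤
      T * (m * ((1 + ε) * (H ^ 2 / 2 + y0 * H) + ε * (H ^ 2 / 2))) + H * (H ^ 2 / 2) := by
    have hi1 : IntervalIntegrable (fun x : ℝ => (H - x) * κ x) volume 1 H :=
      ((continuous_const.sub continuous_id).mul hκc).intervalIntegrable _ _
    have hi2 : IntervalIntegrable (fun x : ℝ => (H - x)) volume 1 H :=
      (continuous_const.sub continuous_id).intervalIntegrable _ _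
    have e3 : ∫ x in (1:ℝ)..H, (H - x) * g2 x =
        T * m * (∫ x in (1:ℝ)..H, (H - x) * κ x) + (T * m * ε + H) * ∫ x in (1:ℝ)..H, (H - x) := by
      rw [← intervalIntegral.integral_const_mul, ← intervalIntegral.integral_const_mul,
        ← intervalIntegral.integral_add (hi1.const_mul _) (hi2.const_mul _)]
      refine intervalIntegral.integral_congr fun x _ => ?_
      simp only [hg2]
      ring
    rw [e3, int_tri hκc]
    have h3 : ∫ y in (1:ℝ)..H, ∫ x in (1:ℝ)..y, κ x ≤ (1 + ε) * (H ^ 2 / 2 + y0 * H) := by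
      have hc : Continuous fun y : ℝ => ∫ x in (1:ℝ)..y, κ x :=
        intervalIntegral.continuous_primitive (fun a b => hκc.intervalIntegrable a b) 1
      have h4 : ∫ y in (1:ℝ)..H, ∫ x in (1:ℝ)..y, κ x ≤ ∫ y in (1:ℝ)..H, (1 + ε) * (y + y0) :=
        intervalIntegral.integral_mono_on hH (hc.intervalIntegrable _ _)
          ((by fun_prop : Continuous fun y : ℝ => (1 + ε) * (y + y0)).intervalIntegrable _ _)
          fun y hy => hκ y hy.1 hy.2
      refine h4.trans ?_
      rw [intervalIntegral.integral_const_mul, intervalIntegral.integral_add intervalIntegral.intervalIntegrable_id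
        intervalIntegrable_const, integral_id, intervalIntegral.integral_const, smul_eq_mul]
      refine mul_le_mul_of_nonneg_left ?_ (by linarith)
      nlinarith
    have h5 := int_lin hH
    have h6 : 0 ≤ T * m := by positivity
    have h7 : 0 ≤ T * m * ε + H := by positivity
    nlinarith [mul_le_mul_of_nonneg_left h3 h6, mul_le_mul_of_nonneg_left h5 h7]
  rw [e1]
  rw [e2] at hv
  have hH2 : 0 < 1 / H ^ 2 := by positivity
  calc (1 / H ^ 2) * ∫ t in (0:ℝ)..T, (∫ s in t..(t + H), F s) ^ 2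
      ≤ (1 / H ^ 2) * (2 * (H * (T * (A + P * (δ ^ (-β) / (1 - (q - β))))) +
        (T * (m * ((1 + ε) * (H ^ 2 / 2 + y0 * H) + ε * (H ^ 2 / 2))) + H * (H ^ 2 / 2)))) :=
        mul_le_mul_of_nonneg_left (hv.trans (mul_le_mul_of_nonneg_left (add_le_add b1 b2) (by norm_num))) hH2.le
    _ = _ := by
        field_simp
        ring

end Pool.Agent.V5helper51.PL
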