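import Pool.Agent.N748.MJ.Stm
import Pool.Agent.N748.HM.Stm

set_option autoImplicit false

/-!
# Project PL: the exact proportion of large values of zeta near the critical line in almost all windows

`z = mz δ t = |ζ(1/2 + δ + it)|`, `ℓ = log (1/(2δ))`, `c = (2δ)^(-V)`. In almost all windows of length `H ≥ δ^(-θ)`, `θ > V² - 1`,
`θ > 0`, the proportion of the points with `z > c` is asymptotically `mu V δ = a(V) (2δ)^(V²) / (2V √(π ℓ))`.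

Everything is derived from the joint moments (JM) of the starting project N748.MJ (`jmF : S_JM` in `N748/MJ/Fin.lean`), by
the second moment method with a barrier. The barrier is the geometric mean `Gm` of `N` values of `|ζ|` at distances
`2η, 4η, ..., 2Nη`, `η = δ^(j/M)`, a real joint moment.

General remarks. `Ev P`: for large `X` and all admissible `δ` (in particular `1/δ ≤ log X`, so every fixed power of `1/δ` is
below `X^(1/2)`, `X^ε`). In (JM) take all integers `n j = 0`; real exponents: `N748.MJ.SM.real_form` (file `N748/MJ/SM.lean`)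
gives `|exp(-Lr) ∫_N G - T a| ≤ ε T`, `G = ∏ mz^(2 k_j)`, and `exp Lr = ∏ ∏ z1^(k_j k_l)` by (LZB). `S_POSV` (`posF`) : the
arithmetic factor is real and between two positive constants. Available as theorems (use them as hypotheses of your theorem
if you do not want to wait for the build): `jmF : S_JM`, `posF : S_POSV`, `conF : S_CONV`, `gvbF : S_GVB`, `bndF : S_BND`,
`LZB.main : S_LZB`.
-/

namespace Pool.Agent.V5helper51.PL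

open Finset Filter MeasureTheory Topology Complex
open Pool.Agent.N748.MG Pool.Agent.N748.MJ

/-! ### definitions -/

/-- `|ζ(1 + 2δ + ix)|` -/
noncomputable def z1 (δ x : ℝ) : ℝ := ‖riemannZeta (((1 + 2 * δ : ℝ) : ℂ) + (x : ℂ) * I)‖

/-- the geometric mean of the values of `|ζ|` at `t + 2η, t + 4η, ..., t + 2Nη` -/
noncomputable def Gm (δ : ℝ) (N : ℕ) (η t : ℝ) : ℝ := ∏ i ∈ range N, mz δ (t + 2 * ((i:ℝ) + 1) * η) ^ (1 / (N:ℝ))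

/-- the good points: at all scales `δ^(j/M)`, `j < M`, the geometric mean is not too large -/
def Gd (V ε : ℝ) (M N : ℕ) (δ t : ℝ) : Prop := ∀ j < M, Gm δ N (δ ^ ((j:ℝ) / M)) t ≤ δ ^ (-((j:ℝ) / M * V + ε))

/-- the expected proportion of the points with `|ζ| > (2δ)^(-V)` -/
noncomputable def mu (V δ : ℝ) : ℝ :=
  (aC V).re * (2 * δ) ^ (V ^ 2) / (2 * V * Real.sqrt (Real.pi * Real.log (1 / (2 * δ))))

/-- the arithmetic factor of the two-point function, `V`-th powers replaced by complex powers `b1`, `b2` -/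
noncomputable def a2 (b1 b2 : ℂ) (h : ℝ) : ℂ := aV ![b1, b2] ![b1, b2] ![0, h]

/-- the correlation function -/
noncomputable def ka (V δ h : ℝ) : ℝ := (a2 V V h).re / (aC V).re ^ 2 * z1 δ h ^ (2 * V ^ 2)

/-! ### the parts -/

/-- (RJM) the real joint moments, upper bound, and integrability. Exponents of both signs.
Proof: (JM) with `ε` = half of the lower bound `c` of (POSV) (for the given `R`, `m`), `n = 0`, `b = k` real, and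
`real_form`. If the function were not integrable on `N` the integral would be `0` and `T a ≤ (c/2) T`, contradiction. -/
def S_RJM : Prop := ∀ (m : ℕ) (R D : ℝ), 0 < R → 0 < D → ∃ C : ℝ, 0 < C ∧ Ev fun X δ =>
  ∀ h : Fin m → ℝ, (∀ j, |h j| ≤ X ^ ((1:ℝ) / 2)) →
  ∃ N : Set ℝ, MeasurableSet N ∧ N ⊆ Set.Icc 0 X ∧ volume (Set.Icc 0 X \ N) ≤ ENNReal.ofReal (δ ^ D * X) ∧
    (∀ t ∈ N, ∀ j, 0 < mz δ (t + h j)) ∧
    ∀ k : Fin m → ℝ, (∀ j, |k j| ≤ R) → IntegrableOn (fun t => ∏ j, mz δ (t + h j) ^ (2 * k j)) N ∧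
      ∫ t in N, ∏ j, mz δ (t + h j) ^ (2 * k j) ≤ C * X * ∏ j, ∏ l, z1 δ (h j - h l) ^ (k j * k l)

/-- (ZB1) zeta near `1`. Proof: `(s-1) ζ(s)` is continuous and not zero on the compact set `1 ≤ Re s ≤ 2`, `|Im s| ≤ A`
(`riemannZeta_ne_zero_of_one_le_re`, `riemannZeta_residue_one`), and `|2δ + ix|` is between `max |x| δ` and `3 max |x| δ`. -/
def S_ZB1 : Prop := ∀ A : ℝ, 1 ≤ A → ∃ c C δ0 : ℝ, 0 < c ∧ 0 < C ∧ 0 < δ0 ∧ ∀ δ : ℝ, 0 < δ → δ ≤ δ0 → ∀ x : ℝ,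
  |x| ≤ A → c ≤ z1 δ x * max |x| δ ∧ z1 δ x * max |x| δ ≤ C

/-- (ZB2) zeta to the right of the line `1` at large heights, `|ζ(σ + ix)| ≤ C log |x| + C` for `σ ≥ 1`, `|x| ≥ 1`
(search the library and Mathlib; or Euler-Maclaurin / the Dirichlet series cut at `|x|`). -/
def S_ZB2 : Prop := ∀ D : ℝ, 0 < D → ∃ C δ0 : ℝ, 0 < C ∧ 0 < δ0 ∧ ∀ δ : ℝ, 0 < δ → δ ≤ δ0 → ∀ x : ℝ, 1 ≤ |x| →
  |x| ≤ δ ^ (-D) → z1 δ x ≤ C * Real.log (1 / δ)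

/-- (BADM) the bad points with `z > c` are rare (uses RJM, ZB1).
Proof: `s = ε/2`. For each `j < M`, `a = j/M`, `η = δ^a`: (RJM) with `m = N + 1`, shifts `0` and `2(i+1)η`, exponents `V` and
`s/N`, exceptional sets of measure `≤ δ^(D+1) X`. On the set in question `1 ≤ (z/c)^(2V) (Gm / b)^(2s)`, `b = δ^(-(aV+ε))`. The
double product of (RJM): diagonal `z1(0)^(V² + s²/N) ≤ C δ^(-V² - s²/N)`; pairs (0,i): `z1(2(i+1)η)^(2Vs/N) ≤ (C/η)^(2Vs/N)`,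
together `(C/η)^(2Vs)`; pairs i ≠ l: together `≤ (C/η)^(s²)` (with `C/η ≥ 1`). Total with `b^(-2s) = δ^(2s(aV+ε))`:
`C δ^(-V² - s²/N - a s² + 2 s ε) ≤ C δ^(-V² + ε²/2)`. -/
def S_BADM : Prop := ∀ V D ε : ℝ, 0 < V → 0 < D → 0 < ε → ∀ M N : ℕ, 1 ≤ M → 1 ≤ N → ∃ C : ℝ, 0 < C ∧ Ev fun X δ =>
  ∀ c : ℝ, 0 < c →
  volume {t : ℝ | 0 ≤ t ∧ t ≤ X ∧ c < mz δ t ∧ ¬ Gd V ε M N δ t} ≤
    ENNReal.ofReal (X * (δ ^ D + C * c ^ (-(2 * V)) * δ ^ (-V ^ 2 + ε ^ 2 / 2)))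

/-- (NEARM) the pairs of points with `z > c` at distances up to `1`, the first one good (uses RJM, ZB1).
Proof: `L = max |h| δ`; there is `j < M` with `|h| ≤ δ^(j/M)`, `δ^((j+1)/M) ≤ L`; `a = j/M`, `η = δ^a`. (RJM) with `m = N + 2`,
shifts `0, h, 2(i+1)η` and exponents `V, V, -V/N` (`|h - 2(i+1)η|` is between `η` and `(2N+1) η`; use (ZB1) with `A = 2N+2`).
On the set in question `1 ≤ (z(t)/c)^(2V) (z(t+h)/c)^(2V) (b/Gm)^(2V)`, `b = δ^(-(aV+ε))`. The double product: diagonal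
`≤ C δ^(-2V² - V²/N)`; pair (0,1): `z1(h)^(2V²) ≤ (C/L)^(2V²)`; pairs (0,i), (1,i): `z1^(-2V²/N) ≤ (C η)^(2V²/N)`, together
`(C η)^(4V²)`; pairs i ≠ l together `≤ (C/η)^(V²)`. With `b^(2V) = η^(-2V²) δ^(-2Vε)` the total is
`C δ^(-2V² - V²/N - 2Vε) L^(-2V²) η^(V²)`, and `η ≤ L δ^(-1/M)`. -/
def S_NEARM : Prop := ∀ V D ε : ℝ, 0 < V → 0 < D → 0 < ε → ∀ M N : ℕ, 1 ≤ M → 1 ≤ N → ∃ C : ℝ, 0 < C ∧ Ev fun X δ =>
  ∀ c : ℝ, 0 < c → ∀ h : ℝ, |h| ≤ 1 →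
  volume {t : ℝ | 0 ≤ t ∧ t ≤ X ∧ c < mz δ t ∧ c < mz δ (t + h) ∧ Gd V ε M N δ t} ≤
    ENNReal.ofReal (X * (δ ^ D + C * c ^ (-(4 * V)) *
      δ ^ (-(2 * V ^ 2 + V ^ 2 / N + 2 * V ^ 2 / M + 2 * V * ε)) * (max |h| δ) ^ (-V ^ 2)))

/-- (MAJ) a band-limited majorant of `exp(-2Vx)` on `x > 0`.
Proof: `g` continuous integrable, `g ≥ 0`, `g(y) ≥ exp(-2Vx) + η/(1+x²)` whenever `x > 0` and `|y - x| ≤ η`, `∫ g` close to
`1/(2V)`; `m = g * K_R` with the Fejer kernel `K_R(x) = R sinc(Rx/2)²/(2π)` (`∫ K_R = 1`, Fourier transform the triangle; see the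
kernel `k0` and `sinc_sq_int` in `N748/MG/LLT.lean`); for large `R` the mass of `K_R` outside `[-η, η]` is small enough.
`φ(ξ) = (1 - |ξ|/R)_+ ĝ(ξ) / (2π)` with `ĝ(ξ) = ∫ g(y) exp(-iξy) dy`. -/
def S_MAJ : Prop := ∀ V ε : ℝ, 0 < V → 0 < ε → ∃ (R : ℝ) (φ : ℝ → ℂ) (m : ℝ → ℝ), 0 < R ∧ Continuous φ ∧
  (∀ ξ, R < |ξ| → φ ξ = 0) ∧ (∀ x, 0 ≤ m x) ∧ (∀ x, 0 < x → Real.exp (-(2 * V * x)) ≤ m x) ∧
  (∀ x : ℝ, ((m x : ℝ) : ℂ) = ∫ ξ in Set.Icc (-R) R, φ ξ * Complex.exp (((ξ * x : ℝ) : ℂ) * I)) ∧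
  2 * Real.pi * ‖φ 0‖ ≤ 1 / (2 * V) + ε

/-- (UCV) the arithmetic factor of the two-point function is uniformly continuous in the exponents, uniformly in the shift
(uses `gvbF`, `bndF`).
Proof: the tail of the product is uniformly close to `1` by (GVB) (`‖gV - 1‖ ≤ C/p²`); for each of the finitely many remaining
primes `gV` is a jointly continuous function of the exponents and of the phase `p^(-ih)` (compact). -/
def S_UCV : Prop := ∀ R ε : ℝ, 0 < R → 0 < ε → ∃ η : ℝ, 0 < η ∧ ∀ b1 b2 c1 c2 : ℂ, ‖b1‖ ≤ R → ‖b2‖ ≤ R → ‖c1‖ ≤ R →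
  ‖c2‖ ≤ R → ‖b1 - c1‖ ≤ η → ‖b2 - c2‖ ≤ η → ∀ h : ℝ, ‖a2 b1 b2 h - a2 c1 c2 h‖ ≤ ε

/-- (FAR2) the pairs of points with `z > c` at distances at least `1` (uses `jmF`, `posF`, `LZB.main`, MAJ, UCV, ZB2, RJM).
Proof: `c = (2δ)^(-V)`, `x = log z1 δ h`. Case `z1^(2V²) ≤ ε'/ℓ²`: `1 ≤ (z(t) z(t+h) / c²)^(2V)` and (RJM) with `m = 2` give
`≤ X (δ^D' + C (2δ)^(2V²) z1^(2V²)) ≤ ε X mu²`. Otherwise `|x| ≤ C log ℓ` ((ZB2) for the upper bound). Take `R, φ, m` from (MAJ):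
`1_{z>c} ≤ (z/c)^(2V) m(log (z/c)) = ∫ φ(ξ) (z/c)^(2V+iξ) dξ` for `z > 0`; integrate the product of the two over the set `N` of (JM)
(`m = 2`, shifts `0, h`, exponents `b = (V + iξ/2, V + iξ'/2)`, `n = 0`, `D' = 2V² + 1`), Fubini over `[-R,R]²`, and take absolute
values: `|exp LM(b,b)| = ζ(1+2δ)^(2V² - (ξ²+ξ'²)/4) z1^(2V² - ξξ'/2)`, so the integrand is at most
`|φ(ξ) φ(ξ')| X (|a2 b b h| + ε') (2δ)^(2V²) (1+o(1)) z1^(2V²) exp(-(ξ²+ξ'²) ℓ'/4 + |ξξ' x|/2)`, `ℓ' = log ζ(1+2δ)`; since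
`|ξξ' x|/2 ≤ (ξ²+ξ'²)|x|/4` the double integral of the exponential is at most `4π/(ℓ' - |x|)`, and only `|ξ|, |ξ'| ≤ η` matter,
where `|φ| ≤ |φ(0)| + ε'` and `|a2| ≤ a2 V V h + ε'` by (UCV) (`a2 V V h ≥ c0 > 0` by (POSV)). Finally
`(2π|φ(0)|)² · 4π/(4π² ℓ) = (1/(2V))² / (π ℓ)`. -/
def S_FAR2 : Prop := ∀ V D ε : ℝ, 0 < V → 0 < D → 0 < ε → Ev fun X δ => ∀ h : ℝ, 1 ≤ |h| → |h| ≤ δ ^ (-D) →
  volume {t : ℝ | 0 ≤ t ∧ t ≤ X ∧ (2 * δ) ^ (-V) < mz δ t ∧ (2 * δ) ^ (-V) < mz δ (t + h)} ≤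
    ENNReal.ofReal (X * ((ka V δ h + ε) * (1 + ε) * mu V δ ^ 2))

/-- (KAV) the correlations are `1` on average (uses `S_ZML3` and `S_ERG` as hypotheses - both proved - and `gvbF`).
Proof: for `z ≥ z0(ε)`, then `δ ≤ δ0(z)`: `ka V δ h ≤ (1+ε) Φ(h) |ζ_z(1+2δ+ih)|^(2V²)`, `ζ_z(s) = ζ(s) ∏_{p<z} (1 - p^(-s))`,
`Φ(h) = ∏_{p<z} E_p(h)/E_p²`, `E_p(h) = ∑_k |lV ![V,V] ![0,h] p k|² p^(-k)`, `E_p = ∑_k lc(V,k)² p^(-k)`: for `p ≥ z` use (GVB)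
(`gV = 1 + O(p^(-2))`, same for `aC`), for `p < z` the factors `|1 - p^(-1-ih)|^(2V²)` of `a2` are compared with those at `1+2δ`.
`Φ` is a continuous function of the phases `p^(-ih)`, `p < z`, of mean `1` over the torus (orthogonality:
`∫ |∑_{i+j=k} lc_i lc_j Y^j|² dY = ∑_{i+j=k} lc_i² lc_j²`), so `∫_1^H Φ ≤ (1+ε) H` for `H ≥ H0(z)` by (ERG), and
`0 ≤ Φ ≤ C (log z)^C`; (ZML3) with `q = 2V²`: `∫_1^H max(|ζ_z|^q - 1, 0) ≤ C z^(-1/2) H`. -/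
def S_KAV : Prop := ∀ V θ ε : ℝ, 0 < V → 0 < θ → 0 < ε → ∃ δ0 : ℝ, 0 < δ0 ∧ ∀ δ : ℝ, 0 < δ → δ ≤ δ0 → ∀ H : ℝ,
  δ ^ (-θ) ≤ H → ∫ h in (1:ℝ)..H, ka V δ h ≤ (1 + ε) * H

/-- (VAR) the mean square of the window integrals.
Proof: `(∫_t^{t+H} F)² = 2 ∫∫_{0 ≤ u, 0 ≤ x, u + x ≤ H} F(t+u) F(t+u+x) du dx`, integrate over `t` first (Fubini, all bounded). -/
def S_VAR : Prop := ∀ (F G : ℝ → ℝ) (T H : ℝ), Measurable F → (∀ s, 0 ≤ F s) → (∀ s, F s ≤ 1) → 0 < H → 0 < T →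
  IntervalIntegrable G volume 0 H →
  (∀ u x : ℝ, 0 ≤ u → 0 ≤ x → u + x ≤ H → ∫ t in (0:ℝ)..T, F (t + u) * F (t + u + x) ≤ G x) →
  ∫ t in (0:ℝ)..T, (∫ s in t..(t + H), F s) ^ 2 ≤ 2 * ∫ x in (0:ℝ)..H, (H - x) * G x

end Pool.Agent.V5helper51.PL
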