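import Pool.Agent.V5helper51.PL.Plw

set_option autoImplicit false

/-!
# Project PL: the theorem, from the parts
-/

namespace Pool.Agent.V5helper51.PL

open Filter MeasureTheory Topology
open Pool.Agent.N748.MG (mz pw Ev aC S_UT)
open Pool.Agent.N748.MJ (S_CONV S_POSV)
open Pool.Agent.V5helper51.HM (Ad Neg frac)

theorem plw (hB : S_BADM) (hN : S_NEARM) (hF : S_FAR2) (hK : S_KAV) (hVAR : S_VAR) (hU : S_UT) (hC : S_CONV)
    (hP : S_POSV) {V θ D : ℝ} (hV : 0 < V) (ha : 0 < (aC V).re) (hθ : 0 < θ) (hVθ : V ^ 2 - 1 < θ) {d H : ℝ → ℝ}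
    (hd : Ad d) (hH : ∀ᶠ T : ℝ in atTop, d T ^ (-θ) ≤ H T ∧ H T ≤ d T ^ (-D)) {η : ℝ} (hη : 0 < η) :
    Neg fun T => {t : ℝ | η ≤ |lam V (d T) (H T) t / mu V (d T) - 1|} := by
  obtain ⟨εb, M, N, hεb, hM, hN1, h2⟩ := sec2 hN hF hK hVAR hC hP hV ha hθ hVθ hd hH
  intro κ hκ
  have hq : 0 < 12 / η ^ 2 + 2 / η := by positivity
  set ε : ℝ := min (1 / 2) (κ / ((12 / η ^ 2 + 2 / η) * 15)) with hε
  have hε0 : 0 < ε := lt_min (by norm_num) (by positivity)
  have hε1 : ε ≤ 1 / 2 := min_le_left _ _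
  have hε2 : (12 / η ^ 2 + 2 / η) * (15 * ε) ≤ κ := by
    have h3 : ε ≤ κ / ((12 / η ^ 2 + 2 / η) * 15) := min_le_right _ _
    rw [le_div_iff₀ (by positivity)] at h3
    linarith
  filter_upwards [h2 ε hε0 (by linarith), ut1 hU hV ha hd ε hε0, bad1 hB hV ha hd εb hεb M N hM hN1 ε hε0, hH,
    hd.sm, eventually_gt_atTop 0] with T ⟨h3, h4⟩ h5 h6 ⟨h7, h7'⟩ ⟨h8, h9⟩ hT
  have hd1 : d T < 1 / 2 := by linarith
  have hH0 : 0 < H T := lt_of_lt_of_le (Real.rpow_pos_of_pos h8 _) h7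
  have hmu : 0 < mu V (d T) := mu_pos hV ha h8 hd1
  set c : ℝ := (2 * d T) ^ (-V) with hc
  set FL : ℝ → ℝ := ind (SL c (d T)) with hFL
  set FG : ℝ → ℝ := ind (SG V εb M N c (d T)) with hFG
  have mL : Measurable FL := ind_meas (SL_meas h8 hd1)
  have mG : Measurable FG := ind_meas (SG_meas h8 hd1)
  have l0 : ∀ s, 0 ≤ FL s := ind0 _
  have l1 : ∀ s, FL s ≤ 1 := ind1 _
  have g0 : ∀ s, 0 ≤ FG s := ind0 _
  have g1 : ∀ s, FG s ≤ 1 := ind1 _
  have hle : ∀ s, FG s ≤ FL s := by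
    intro s
    simp only [hFL, hFG, ind]
    exact Set.indicator_le_indicator_of_subset SG_sub (fun _ => zero_le_one) s
  have iL := ii_bdd mL l0 l1
  have iG := ii_bdd mG g0 g1
  have aL := Av_mean mL l0 l1 hH0 hT
  have aG := Av_mean mG g0 g1 hH0 hT
  -- `mu ≤ 2`
  have hI1 : ∫ s in (0:ℝ)..T, FL s ≤ T := by
    have := intervalIntegral.integral_mono_on hT.le (iL _ _) intervalIntegrable_const fun u _ => l1 u
    rw [intervalIntegral.integral_const, smul_eq_mul, mul_one, sub_zero] at this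
    exact this
  have hmu2 : mu V (d T) ≤ 2 := by
    have e1 : (1 - ε) * mu V (d T) * T ≤ T := h5.trans hI1
    have e2 : (1 - ε) * mu V (d T) ≤ 1 := by
      by_contra hcon
      have := mul_lt_mul_of_pos_right (not_le.1 hcon) hT
      linarith
    nlinarith
  have hHs : H T ≤ 2 * ε * mu V (d T) * T := by
    refine h3.trans ?_
    have : mu V (d T) ^ 2 ≤ 2 * mu V (d T) := by nlinarith
    calc ε * mu V (d T) ^ 2 * T ≤ ε * (2 * mu V (d T)) * T :=
          mul_le_mul_of_nonneg_right (mul_le_mul_of_nonneg_left this hε0.le) hT.le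
      _ = _ := by ring
  -- the bad points up to `T`
  have hbT : (∫ s in (0:ℝ)..T, FL s) - (∫ s in (0:ℝ)..T, FG s) ≤ ε * mu V (d T) * T := by
    have e1 : (∫ s in (0:ℝ)..T, FL s) - (∫ s in (0:ℝ)..T, FG s) = ∫ s in (0:ℝ)..T, (FL s - FG s) :=
      (intervalIntegral.integral_sub (iL _ _) (iG _ _)).symm
    have e2 := intervalIntegral.integral_add_adjacent_intervals ((iL 0 T).sub (iG 0 T)) ((iL T (2 * T)).sub (iG T (2 * T)))
    have e3 : 0 ≤ ∫ s in T..(2 * T), (FL s - FG s) :=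
      intervalIntegral.integral_nonneg (by linarith) fun s _ => by linarith [hle s]
    rw [e1]
    linarith
  have hTH : ∫ s in (0:ℝ)..(T + H T), FL s ≤ (∫ s in (0:ℝ)..T, FL s) + H T := by
    have e2 := intervalIntegral.integral_add_adjacent_intervals (iL 0 T) (iL T (T + H T))
    have e3 : ∫ s in T..(T + H T), FL s ≤ H T := by
      have := intervalIntegral.integral_mono_on (by linarith : T ≤ T + H T) (iL _ _) intervalIntegrable_const
        fun u _ => l1 u
      rw [intervalIntegral.integral_const, smul_eq_mul, mul_one, add_sub_cancel_left] at this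
      exact this
    linarith
  have hcL := Av_cont mL l0 l1 (H T)
  have hcG := Av_cont mG g0 g1 (H T)
  have hAA : ∀ t, Av FG (H T) t ≤ Av FL (H T) t := by
    intro t
    unfold Av
    refine mul_le_mul_of_nonneg_left ?_ (by positivity)
    exact intervalIntegral.integral_mono_on (by linarith) (iG _ _) (iL _ _) fun s _ => hle s
  have hpos : 0 ≤ ε * mu V (d T) * T := by positivity
  have key := cheb hcL hcG hAA (T := T) (μ := mu V (d T)) (ε := 15 * ε) (η := η) hT hmu (by positivity) hη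
    (by
      have e1 : (1 - 15 * ε) * mu V (d T) * T = (1 - ε) * mu V (d T) * T - 14 * (ε * mu V (d T) * T) := by ring
      have e2 : 2 * ε * mu V (d T) * T = 2 * (ε * mu V (d T) * T) := by ring
      rw [e1]
      linarith [aG.1])
    h4
    (by
      rw [intervalIntegral.integral_sub (hcL.intervalIntegrable _ _) (hcG.intervalIntegrable _ _)]
      have e1 : 15 * ε * mu V (d T) * T = 15 * (ε * mu V (d T) * T) := by ring
      have e2 : 2 * ε * mu V (d T) * T = 2 * (ε * mu V (d T) * T) := by ring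
      rw [e1]
      linarith [aG.1, aL.2])
  have e0 : {t : ℝ | η ≤ |lam V (d T) (H T) t / mu V (d T) - 1|} =
      {t : ℝ | η ≤ |Av FL (H T) t / mu V (d T) - 1|} := by
    ext t
    simp only [Set.mem_setOf_eq]
    rw [lam_eq h8 hd1 hH0]
  rw [e0]
  refine key.trans (ENNReal.ofReal_le_ofReal ?_)
  exact mul_le_mul_of_nonneg_right hε2 hT.le

end Pool.Agent.V5helper51.PL
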